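import Pool.Agent.Lib.MP_021685_agUT.K4
import Pool.Agent.Lib.MP_021685_agUT.M3

/-!
# The forms with four arguments on two dual irreducible parts
-/

set_option autoImplicit false

noncomputable section

namespace TUT

open Module

/-- The table of the values. -/
private def W1_E (x01 x03 x21 x23 : ℂ) : Fin 4 → Fin 4 → ℂ :=
  ![![0, x01, 0, x03], ![x01, 0, x21, 0], ![0, x21, 0, x23], ![x03, 0, x23, 0]]

private theorem W1_fin (a b c d : Fin 4) (hab : a ≠ b) (hac : a ≠ c) (had : a ≠ d) (hbc : b ≠ c) (hbd : b ≠ d)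
    (hcd : c ≠ d) : ∃ α γ : ℂ, ∀ x01 x03 x21 x23 : ℂ,
      W1_E x01 x03 x21 x23 a b * W1_E x01 x03 x21 x23 c d = α * (x01 * x23) + γ * (x03 * x21) := by
  fin_cases a <;> fin_cases b <;> (try exact absurd rfl hab) <;> fin_cases c <;> (try exact absurd rfl hac) <;>
    (try exact absurd rfl hbc) <;> fin_cases d <;> (try exact absurd rfl hcd) <;> (try exact absurd rfl had) <;>
    (try exact absurd rfl hbd) <;>
    first
    | (refine ⟨0, 0, fun x01 x03 x21 x23 => ?_⟩; simp [W1_E]; done)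
    | (refine ⟨1, 0, fun x01 x03 x21 x23 => ?_⟩; simp [W1_E]; done)
    | (refine ⟨1, 0, fun x01 x03 x21 x23 => ?_⟩; simp [W1_E]; ring1)
    | (refine ⟨0, 1, fun x01 x03 x21 x23 => ?_⟩; simp [W1_E]; done)
    | (refine ⟨0, 1, fun x01 x03 x21 x23 => ?_⟩; simp [W1_E]; ring1)

section

variable {H : Type} [AddCommGroup H] [Module ℂ H] [FiniteDimensional ℂ H] {G : Type} [Group G] {J : Type} [Fintype J]
  {e : H →ₗ[ℂ] H →ₗ[ℂ] ℂ} {bar : J → J} {p : J → Module.End ℂ H} {ρ : Representation ℂ G H} {μ : G →* ℂˣ}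

omit [FiniteDimensional ℂ H] in
private theorem W1_skew (alt : ∀ v, e v v = 0) (x y : H) : e x y = - e y x := by
  have h1 := alt (x + y)
  rw [map_add, map_add, LinearMap.add_apply, LinearMap.add_apply, alt, alt, zero_add, add_zero] at h1
  exact eq_neg_of_add_eq_zero_right h1

private theorem W1_phi (hB : Big e bar p ρ μ) (β : H →ₗ[ℂ] H →ₗ[ℂ] ℂ)
    (hβ : ∀ s u v, β (ρ s u) (ρ s v) = (μ s : ℂ) * β u v) :
    ∃ φ : Module.End ℂ H, (∀ x y, β x y = e (φ x) y) ∧ φ ∈ comm ρ := by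
  have hinj : Function.Injective e := by
    rw [injective_iff_map_eq_zero]
    intro v hv
    exact hB.blk.nd v fun w => by rw [hv, LinearMap.zero_apply]
  have hdim : finrank ℂ H = finrank ℂ (H →ₗ[ℂ] ℂ) := (Subspace.dual_finrank_eq (K := ℂ) (V := H)).symm
  obtain ⟨φ, hφ⟩ : ∃ φ : Module.End ℂ H, ∀ x, e (φ x) = β x := by
    refine ⟨(LinearMap.linearEquivOfInjective e hinj hdim).symm.toLinearMap ∘ₗ β, fun x => ?_⟩
    exact (LinearMap.linearEquivOfInjective e hinj hdim).apply_symm_apply (β x)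
  refine ⟨φ, fun x y => by rw [hφ], fun s => ?_⟩
  refine LinearMap.ext fun x => ?_
  have h2 : ∀ w, e (φ (ρ s x) - ρ s (φ x)) w = 0 := by
    intro w
    have h3 : w = ρ s (ρ s⁻¹ w) := by
      rw [← Module.End.mul_apply, ← map_mul, mul_inv_cancel, map_one, Module.End.one_apply]
    rw [map_sub, LinearMap.sub_apply, h3, hB.he, hφ, hφ, hβ s]
    ring
  exact (sub_eq_zero.1 (hB.blk.nd _ h2)).symm

private theorem W1_diff (hB : Big e bar p ρ μ) {N : J → ℕ} {ε : J → Module.End ℂ H} {u v : ∀ f, Fin (N f) → Module.End ℂ H}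
    (hS : MSys e bar p ρ N ε u v) (f : J) (β : H →ₗ[ℂ] H →ₗ[ℂ] ℂ)
    (hβ : ∀ s u v, β (ρ s u) (ρ s v) = (μ s : ℂ) * β u v) :
    ∃ c : ℂ, ∀ x y, ε f x = x → ε (bar f) y = y → β x y = c * e x y := by
  obtain ⟨φ, hφ, hc⟩ := W1_phi hB β hβ
  obtain ⟨c, h1⟩ := (hS.unit f).prim φ hc
  refine ⟨c, fun x y hx hy => ?_⟩
  have h2 : ε f (φ (ε f x)) = c • ε f x := LinearMap.congr_fun h1 x
  rw [hx] at h2
  rw [hφ, ← hy, ← hS.adj, h2, map_smul, LinearMap.smul_apply, smul_eq_mul, hy]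

private theorem W1_same (hB : Big e bar p ρ μ) {N : J → ℕ} {ε : J → Module.End ℂ H} {u v : ∀ f, Fin (N f) → Module.End ℂ H}
    (hS : MSys e bar p ρ N ε u v) (f : J) (β : H →ₗ[ℂ] H →ₗ[ℂ] ℂ)
    (hβ : ∀ s u v, β (ρ s u) (ρ s v) = (μ s : ℂ) * β u v) (x y : H) (hx : ε f x = x) (hy : ε f y = y) : β x y = 0 := by
  obtain ⟨φ, hφ, hc⟩ := W1_phi hB β hβ
  have hp : ∀ z, ε f z = z → p f z = z := fun z hz => by
    rw [← hz, ← Module.End.mul_apply, (hS.unit f).pf]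
  have h1 : φ (p f x) = p f (φ x) := (LinearMap.congr_fun (hB.central f φ hc) x).symm
  have h2 : p (bar f) (p f y) = 0 := LinearMap.congr_fun (hB.blk.orth (bar f) f (hB.blk.bne f)) y
  rw [hφ, ← hp x hx, h1, hB.blk.adj, ← hp y hy, h2, map_zero]

private theorem W1_pair (hB : Big e bar p ρ μ) {N : J → ℕ} {ε : J → Module.End ℂ H} {u v : ∀ f, Fin (N f) → Module.End ℂ H}
    (hS : MSys e bar p ρ N ε u v) (f : J) (β : H →ₗ[ℂ] H →ₗ[ℂ] ℂ)
    (hβ : ∀ s u v, β (ρ s u) (ρ s v) = (μ s : ℂ) * β u v) :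
    ∃ k : Fin 4 → ℂ, ∀ w : Fin 4 → H, ε f (w 0) = w 0 → ε (bar f) (w 1) = w 1 → ε f (w 2) = w 2 →
      ε (bar f) (w 3) = w 3 → ∀ i j, β (w i) (w j) =
        k i * W1_E (e (w 0) (w 1)) (e (w 0) (w 3)) (e (w 2) (w 1)) (e (w 2) (w 3)) i j := by
  obtain ⟨c, hc⟩ := W1_diff hB hS f β hβ
  obtain ⟨c', hc'⟩ := W1_diff hB hS (bar f) β hβ
  rw [hB.blk.bb] at hc'
  have hd : ∀ x y, ε f x = x → ε (bar f) y = y → β y x = - c' * e x y := fun x y hx hy => by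
    rw [hc' y x hy hx, W1_skew hB.blk.alt y x]
    ring
  have h0 := W1_same hB hS f β hβ
  have h0' := W1_same hB hS (bar f) β hβ
  refine ⟨![c, -c', c, -c'], fun w w0 w1 w2 w3 i j => ?_⟩
  fin_cases i <;> fin_cases j
  · exact (h0 _ _ w0 w0).trans (mul_zero _).symm
  · exact hc _ _ w0 w1
  · exact (h0 _ _ w0 w2).trans (mul_zero _).symm
  · exact hc _ _ w0 w3
  · exact hd _ _ w0 w1
  · exact (h0' _ _ w1 w1).trans (mul_zero _).symm
  · exact hd _ _ w2 w1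
  · exact (h0' _ _ w1 w3).trans (mul_zero _).symm
  · exact (h0 _ _ w2 w0).trans (mul_zero _).symm
  · exact hc _ _ w2 w1
  · exact (h0 _ _ w2 w2).trans (mul_zero _).symm
  · exact hc _ _ w2 w3
  · exact hd _ _ w0 w3
  · exact (h0' _ _ w3 w1).trans (mul_zero _).symm
  · exact hd _ _ w2 w3
  · exact (h0' _ _ w3 w3).trans (mul_zero _).symm

end

theorem two_forms {H : Type} [AddCommGroup H] [Module ℂ H] [FiniteDimensional ℂ H] {G : Type} [Group G] {J : Type} [Fintype J]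
    {e : H →ₗ[ℂ] H →ₗ[ℂ] ℂ} {bar : J → J} {p : J → Module.End ℂ H} {ρ : Representation ℂ G H} {μ : G →* ℂˣ}
    (hB : Big e bar p ρ μ) {N : J → ℕ} {ε : J → Module.End ℂ H} {u v : ∀ f, Fin (N f) → Module.End ℂ H}
    (hS : MSys e bar p ρ N ε u v) (f : J) {T : MultilinearMap ℂ (fun _ : Fin 4 => H) ℂ}
    (hT : T ∈ Submodule.span ℂ {T' : MultilinearMap ℂ (fun _ : Fin 4 => H) ℂ | IsPg ρ μ T'}) :
    ∃ α γ : ℂ, ∀ w : Fin 4 → H, ε f (w 0) = w 0 → ε (bar f) (w 1) = w 1 → ε f (w 2) = w 2 → ε (bar f) (w 3) = w 3 →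
      T w = α * (e (w 0) (w 1) * e (w 2) (w 3)) + γ * (e (w 0) (w 3) * e (w 2) (w 1)) := by
  induction hT using Submodule.span_induction with
  | mem T hT =>
    obtain ⟨m, η, β, hβ, hT⟩ := hT
    have hm : m = 2 := by
      have h1 := Fintype.card_congr η
      rw [Fintype.card_sum, Fintype.card_fin, Fintype.card_fin] at h1
      omega
    subst hm
    obtain ⟨k, hk⟩ := W1_pair hB hS f (β 0) (hβ 0)
    obtain ⟨l, hl⟩ := W1_pair hB hS f (β 1) (hβ 1)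
    have hne : ∀ x y : Fin 2 ⊕ Fin 2, x ≠ y → η x ≠ η y := fun x y h => η.injective.ne h
    obtain ⟨α, γ, h⟩ := W1_fin (η (Sum.inl 0)) (η (Sum.inr 0)) (η (Sum.inl 1)) (η (Sum.inr 1))
      (hne _ _ (by simp)) (hne _ _ (by simp)) (hne _ _ (by simp)) (hne _ _ (by simp)) (hne _ _ (by simp)) (hne _ _ (by simp))
    refine ⟨k (η (Sum.inl 0)) * l (η (Sum.inl 1)) * α, k (η (Sum.inl 0)) * l (η (Sum.inl 1)) * γ,
      fun w w0 w1 w2 w3 => ?_⟩
    rw [hT w, Fin.prod_univ_two, hk w w0 w1 w2 w3, hl w w0 w1 w2 w3]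
    have h1 := h (e (w 0) (w 1)) (e (w 0) (w 3)) (e (w 2) (w 1)) (e (w 2) (w 3))
    linear_combination (k (η (Sum.inl 0)) * l (η (Sum.inl 1))) * h1
  | zero => exact ⟨0, 0, fun w _ _ _ _ => by rw [_root_.zero_apply]; ring⟩
  | add T T' _ _ h h' =>
    obtain ⟨α, γ, h⟩ := h
    obtain ⟨α', γ', h'⟩ := h'
    refine ⟨α + α', γ + γ', fun w w0 w1 w2 w3 => ?_⟩
    rw [_root_.add_apply, h w w0 w1 w2 w3, h' w w0 w1 w2 w3]
    ring
  | smul a T _ h =>
    obtain ⟨α, γ, h⟩ := h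
    refine ⟨a * α, a * γ, fun w w0 w1 w2 w3 => ?_⟩
    rw [_root_.smul_apply, h w w0 w1 w2 w3, smul_eq_mul]
    ring

end TUT
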