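import Pool.Agent.Lib.MP_021685_agUX.YD
import Pool.Agent.Lib.MP_802513_agUH.VDefs

/-! Definitions used in the statement of `MP_021685_ag.UnitaryType`: the statement for all multiplicities. -/

set_option autoImplicit false

namespace TUT

open TensorProduct Pool.Agent.Lib.MP_17a322_nt.VA Pool.Agent.Lib.MP_021685_agTT

section

variable {r : ℕ} {E : Fin r → Type} [∀ i, Field (E i)] {K : Type} [Field K]
  (n : (K →+* ℂ) → (Σ i, E i →+* ℂ) → ℕ) (N : Fin r → ℕ)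

/-- There are one embedding `σ` of `K` and one embedding `φ` of `E i` such that the greatest common divisor of the multiplicities of
`φ` and its complex conjugate is `N i` (it divides both). -/
def CoprimeAt (i : Fin r) : Prop :=
  ∃ (σ : K →+* ℂ) (φ : E i →+* ℂ), Nat.gcd (n σ ⟨i, φ⟩) (n σ (cj ⟨i, φ⟩)) = N i

/-- There are one embedding `σ` of `K` and one embedding `φ` of `E i` such that the multiplicities of `φ` and its complex conjugate are
different and not zero. -/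
def SkewAt (i : Fin r) : Prop :=
  ∃ (σ : K →+* ℂ) (φ : E i →+* ℂ), n σ ⟨i, φ⟩ ≠ n σ (cj ⟨i, φ⟩) ∧ n σ ⟨i, φ⟩ ≠ 0 ∧ n σ (cj ⟨i, φ⟩) ≠ 0

/-- One of the multiplicities of the embeddings of `E i` is not that of the complex conjugate embedding. -/
def UnbalancedAt (i : Fin r) : Prop :=
  ∃ (σ : K →+* ℂ) (φ : E i →+* ℂ), n σ ⟨i, φ⟩ ≠ n σ (cj ⟨i, φ⟩)

/-- The maximal real subfields of the `E i` with `m i = 2` have no subfields but themselves and `ℚ`, and no two of them are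
isomorphic. -/
def RankTwo [∀ i, NumberField (E i)] : Prop :=
  (∀ i, IsRank n N i 2 → HUT.RealMinimal (E i)) ∧
    ∀ i j, i ≠ j → IsRank n N i 2 → IsRank n N j 2 → ¬ HUT.RealIso (E i) (E j)

end

section

variable {K : Type} [Field K] {l : ℕ} [Fact l.Prime] {V : Type} [AddCommGroup V] [Module ℚ_[l] V]
  [Algebra ℚ_[l] ℂ] {r : ℕ} {E : Fin r → Type} [∀ i, Field (E i)] [∀ i, NumberField (E i)]

/-- The theorems without conditions on the fields. -/
def CriterionAll (ρ : Representation ℚ_[l] (GalK K) V) (a : (∀ i, E i) →+* Module.End ℚ_[l] V)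
    (n : (K →+* ℂ) → (Σ i, E i →+* ℂ) → ℕ) (N : Fin r → ℕ) : Prop :=
  (AllTate ρ → NoTwist (repC ρ) (part a) N ∧ ∀ P, FourTate ρ P) ∧
    (IsSerre (repC ρ) (IsFix K) (part a) n → AllTate ρ → Nondeg n) ∧
    (IsShimura n N → FourTate ρ 1 → Nondeg n → AllTate ρ) ∧
    ((∀ i, CoprimeAt n N i ∨ IsShimura n N ∧ ((∃ m : ℕ, (m = 1 ∨ m.Prime) ∧ IsRank n N i m) ∨ FourTate ρ (a (Pi.single i 1)))) →
      NoLink n N ∨ NoTwist (repC ρ) (part a) N → Nondeg n → AllTate ρ)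

/-- The theorems for the separated families of fields `E i`. -/
def SeparatedAll (ρ : Representation ℚ_[l] (GalK K) V) (a : (∀ i, E i) →+* Module.End ℚ_[l] V)
    (n : (K →+* ℂ) → (Σ i, E i →+* ℂ) → ℕ) (N : Fin r → ℕ) : Prop :=
  TSP.Sep E →
    (Nondeg n ↔ ∀ i, UnbalancedAt n i) ∧
    (IsShimura n N → FourTate ρ 1 → (∀ i, UnbalancedAt n i) → AllTate ρ) ∧
    ((∀ i, CoprimeAt n N i) → (∀ i, ¬ IsRank n N i 2) → AllTate ρ) ∧
    (IsShimura n N → (∀ i, ∃ m : ℕ, IsRank n N i m ∧ (m = 1 ∨ m.Prime ∧ m ≠ 2)) → AllTate ρ) ∧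
    (NumberField K → RankTwo n N → (∀ i, IsRank n N i 2 → UnbalancedAt n i) →
      (∀ i, CoprimeAt n N i ∨ IsShimura n N ∧ ((∃ m : ℕ, (m = 1 ∨ m.Prime) ∧ IsRank n N i m) ∨
        SkewAt n i ∧ FourTate ρ (a (Pi.single i 1)))) → AllTate ρ)

end

/-- The theorems on abelian varieties all whose simple factors are of type IV, for all multiplicities. -/
def MainAll : Prop :=
  ∀ (K : Type) [Field K] (M : ℕ) (A : AV K M) (l : ℕ) [Fact l.Prime] [Algebra ℚ_[l] ℂ]
    (V : Type) [AddCommGroup V] [Module ℚ_[l] V] [FiniteDimensional ℚ_[l] V] (ι : (ℕ → A.Pts (AlgebraicClosure K)) → V)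
    (ρ : Representation ℚ_[l] (GalK K) V) (e : V →ₗ[ℚ_[l]] V →ₗ[ℚ_[l]] ℚ_[l])
    (D : Type) [Ring D] [Algebra ℚ D] (b : D →+* Module.End ℚ_[l] V)
    (r : ℕ) (E : Fin r → Type) [∀ i, Field (E i)] [∀ i, NumberField (E i)] (c : (∀ i, E i) →+* D)
    (t : (∀ i, E i) → K) (n : (K →+* ℂ) → (Σ i, E i →+* ℂ) → ℕ) (N : Fin r → ℕ),
    IsUnitary A l ι ρ e b c t n N → CriterionAll ρ (b.comp c) n N ∧ SeparatedAll ρ (b.comp c) n N

end TUT
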