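import Pool.Agent.Lib.MP_021685_agUX.YD
import Pool.Agent.Lib.MP_021685_agUT.M6
import Pool.Agent.Lib.MP_021685_agUT.Z3

/-!
# Tate classes of degree four over the `l`-adic numbers and over the complex numbers
-/

set_option autoImplicit false

namespace TUT

open TensorProduct Module Pool.Agent.Lib.MP_17a322_nt.VA Pool.Agent.Lib.MP_021685_agTT

theorem four_of_all {K : Type} [Field K] {l : ℕ} [Fact l.Prime] {V : Type} [AddCommGroup V] [Module ℚ_[l] V]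
    {ρ : Representation ℚ_[l] (GalK K) V} (h : Generated ρ (Representation.trivial ℚ_[l] (GalK K) ℚ_[l]))
    (P : Module.End ℚ_[l] V) : FourTate ρ P := by
  intro i L hL T hT _
  let A' : (Fin 4 → V) [⋀^Fin 2 ⊕ Fin 2]→ₗ[ℚ_[l]] (ℚ_[l] →ₗ[ℚ_[l]] ℚ_[l]) :=
    (LinearMap.mul ℚ_[l] ℚ_[l]).compAlternatingMap T
  have hA' : ∀ x w, A' x w = T x * w := fun x w => rfl
  obtain ⟨L', hL', r, D, y, hD, -, hsum⟩ := (h 4 2 i L hL).1 A' (by
    intro s hs x w
    rw [hA', hA', Representation.trivial_apply, hT s hs x]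
    ring)
  refine ⟨L', hL', r, D, fun a => y a 1, hD, fun v => ?_⟩
  have h1 := hsum v 1
  rw [hA', mul_one] at h1
  rw [h1]
  exact Finset.sum_congr rfl fun a _ => mul_comm _ _

/-- From alternating forms on the fourth power to multilinear forms. -/
private theorem Y1_multi {K : Type} [Field K] {l : ℕ} [Fact l.Prime] {V : Type} [AddCommGroup V]
    [Module ℚ_[l] V] {ρ : Representation ℚ_[l] (GalK K) V} {P : Module.End ℚ_[l] V}
    (h : FourTate ρ P) (L : IntermediateField K (AlgebraicClosure K))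
    (hL : FiniteDimensional K L) (i : ℤ) (T : MultilinearMap ℚ_[l] (fun _ : Fin 4 => V) ℚ_[l])
    (hT : ∀ s ∈ L.fixingSubgroup, ∀ v, T (fun j => ρ s (v j)) = ((cyc K l s ^ i : ℚ_[l]ˣ) : ℚ_[l]) * T v)
    (hP : ∀ v, T (fun j => P (v j)) = T v) :
    T ∈ Submodule.span ℚ_[l] {T' | ∃ (L' : IntermediateField K (AlgebraicClosure K)) (m : ℕ)
      (ε : Fin m ⊕ Fin m ≃ Fin 4) (D : Fin m → V →ₗ[ℚ_[l]] V →ₗ[ℚ_[l]] ℚ_[l]), FiniteDimensional K L' ∧
      (∀ j, ∀ s ∈ L'.fixingSubgroup, ∀ u w, D j (ρ s u) (ρ s w) = (cyc K l s : ℚ_[l]) * D j u w) ∧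
      ∀ v, T' v = ∏ j, D j (v (ε (Sum.inl j))) (v (ε (Sum.inr j)))} := by
  classical
  let S : MultilinearMap ℚ_[l] (fun _ : Fin 4 => Fin 4 → V) ℚ_[l] :=
    T.compLinearMap fun j => LinearMap.proj j
  let A : (Fin 4 → V) [⋀^Fin 4]→ₗ[ℚ_[l]] ℚ_[l] := MultilinearMap.alternatization S
  have hA : ∀ x, A x = ∑ π : Equiv.Perm (Fin 4), ((Equiv.Perm.sign π : ℤ) : ℚ_[l]) *
      T fun j => x (π j) j := by
    intro x
    show MultilinearMap.alternatization S x = _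
    rw [MultilinearMap.alternatization_apply]
    refine Finset.sum_congr rfl fun π _ => ?_
    rw [Units.smul_def, zsmul_eq_mul]
    rfl
  have hA1 : ∀ s ∈ L.fixingSubgroup, ∀ x : Fin 4 → Fin 4 → V, A (fun j t => ρ s (x j t)) =
      ((cyc K l s ^ i : ℚ_[l]ˣ) : ℚ_[l]) * A x := by
    intro s hs x
    rw [hA, hA, Finset.mul_sum]
    refine Finset.sum_congr rfl fun π _ => ?_
    rw [hT s hs fun j => x (π j) j]
    ring
  have hAP : ∀ x : Fin 4 → Fin 4 → V, A (fun j t => P (x j t)) = A x := by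
    intro x
    rw [hA, hA]
    refine Finset.sum_congr rfl fun π _ => ?_
    rw [hP fun j => x (π j) j]
  have hA2 : ∀ u : Fin 4 → V, A (fun j => LinearMap.single ℚ_[l] (fun _ : Fin 4 => V) j (u j)) = T u := by
    intro u
    rw [hA, Finset.sum_eq_single 1]
    · rw [Equiv.Perm.sign_one, Units.val_one, Int.cast_one, one_mul]
      refine congrArg T (funext fun j => ?_)
      exact Pi.single_eq_same _ _
    · intro π _ hπ
      obtain ⟨j, hj⟩ : ∃ j, π j ≠ j := by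
        by_contra hn
        push Not at hn
        exact hπ (Equiv.ext hn)
      rw [T.map_coord_zero j, mul_zero]
      exact Pi.single_eq_of_ne (Ne.symm hj) _
    · intro hn
      exact absurd (Finset.mem_univ _) hn
  let e0 : Fin 2 ⊕ Fin 2 ≃ Fin 4 := finSumFinEquiv
  let A'' := A.domDomCongr e0.symm
  have hA'' : ∀ x, A'' x = A (fun i => x (e0.symm i)) := fun x => rfl
  obtain ⟨L', hL', r, D, y, hD, hsum⟩ := h i L hL A'' (by
    intro s hs x
    rw [hA'', hA'', hA1 s hs fun i => x (e0.symm i)]) (by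
    intro x
    rw [hA'', hA'', hAP fun i => x (e0.symm i)])
  have key : T = ∑ a, ∑ π : Equiv.Perm (Fin 2 ⊕ Fin 2), (((Equiv.Perm.sign π : ℤ) : ℚ_[l]) * y a) •
      mulForm (π.trans e0) (fun b => (D a b).compl₁₂
        (LinearMap.single ℚ_[l] (fun _ : Fin 4 => V) (e0 (π (Sum.inl b))))
        (LinearMap.single ℚ_[l] (fun _ : Fin 4 => V) (e0 (π (Sum.inr b))))) := by
    refine MultilinearMap.ext fun u => ?_
    have h1 := hsum (fun t => LinearMap.single ℚ_[l] (fun _ : Fin 4 => V) (e0 t) (u (e0 t)))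
    rw [hA''] at h1
    simp only [Equiv.apply_symm_apply] at h1
    rw [← hA2 u, h1, sum_apply]
    refine Finset.sum_congr rfl fun a _ => ?_
    rw [sum_apply, Finset.mul_sum]
    refine Finset.sum_congr rfl fun π _ => ?_
    rw [smul_apply, smul_eq_mul, mul_comm ((Equiv.Perm.sign π : ℤ) : ℚ_[l]) (y a), mul_assoc]
    rfl
  rw [key]
  refine Submodule.sum_mem _ fun a _ => Submodule.sum_mem _ fun π _ => Submodule.smul_mem _ _
    (Submodule.subset_span ⟨L', 2, π.trans e0, _, hL', ?_, fun v => rfl⟩)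
  intro b s hs u w
  have h1 := (hD a b).2 s hs
    (LinearMap.single ℚ_[l] (fun _ : Fin 4 => V) (e0 (π (Sum.inl b))) u)
    (LinearMap.single ℚ_[l] (fun _ : Fin 4 => V) (e0 (π (Sum.inr b))) w)
  rw [LinearMap.compl₁₂_apply, LinearMap.compl₁₂_apply]
  rw [← repPow_single ρ 4 s, ← repPow_single ρ 4 s]
  exact h1

/-- The forms over `ℂ` given by a combination of products of pairings over `ℚ_l`. -/
private theorem Y1_lift {K : Type} [Field K] {l : ℕ} [Fact l.Prime] [Algebra ℚ_[l] ℂ] {V : Type} [AddCommGroup V]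
    [Module ℚ_[l] V] [FiniteDimensional ℚ_[l] V] {ρ : Representation ℚ_[l] (GalK K) V} {k : ℕ}
    (T : MultilinearMap ℚ_[l] (fun _ : Fin k => V) ℚ_[l])
    (hT : T ∈ Submodule.span ℚ_[l] {T' | ∃ (L' : IntermediateField K (AlgebraicClosure K)) (m : ℕ)
      (ε : Fin m ⊕ Fin m ≃ Fin k) (D : Fin m → V →ₗ[ℚ_[l]] V →ₗ[ℚ_[l]] ℚ_[l]), FiniteDimensional K L' ∧
      (∀ j, ∀ s ∈ L'.fixingSubgroup, ∀ u w, D j (ρ s u) (ρ s w) = (cyc K l s : ℚ_[l]) * D j u w) ∧
      ∀ v, T' v = ∏ j, D j (v (ε (Sum.inl j))) (v (ε (Sum.inr j)))}) :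
    ∃ TC ∈ Submodule.span ℂ {T' : MultilinearMap ℂ (fun _ : Fin k => ℂ ⊗[ℚ_[l]] V) ℂ |
      ∃ (L' : IntermediateField K (AlgebraicClosure K)) (m : ℕ)
      (ε : Fin m ⊕ Fin m ≃ Fin k) (β : Fin m → (ℂ ⊗[ℚ_[l]] V) →ₗ[ℂ] (ℂ ⊗[ℚ_[l]] V) →ₗ[ℂ] ℂ), FiniteDimensional K L' ∧
      (∀ j, TGR.IsPairing (repC ρ) (charC (cyc K l)) L'.fixingSubgroup (β j)) ∧
      ∀ v, T' v = ∏ j, β j (v (ε (Sum.inl j))) (v (ε (Sum.inr j)))},
      ∀ v : Fin k → V, TC (fun a => 1 ⊗ₜ v a) = algebraMap ℚ_[l] ℂ (T v) := by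
  induction hT using Submodule.span_induction with
  | mem T' hT' =>
    obtain ⟨L', m, ε, D, hL', hD, hT'⟩ := hT'
    refine ⟨mulForm ε fun j => bilC (D j), Submodule.subset_span ⟨L', m, ε, fun j => bilC (D j), hL', ?_, fun v => rfl⟩,
      fun v => ?_⟩
    · intro j s hs u w
      have h : (bilC (D j)).compl₁₂ ((ρ s).baseChange ℂ) ((ρ s).baseChange ℂ) =
          (charC (cyc K l) s : ℂ) • bilC (D j) := by
        refine bil_ext fun v w => ?_
        rw [LinearMap.compl₁₂_apply, LinearMap.baseChange_tmul, LinearMap.baseChange_tmul, bilC_tmul,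
          hD j s hs, LinearMap.smul_apply, LinearMap.smul_apply, bilC_tmul, map_mul, smul_eq_mul, charC_apply]
      have h1 := LinearMap.congr_fun₂ h u w
      rwa [LinearMap.compl₁₂_apply, LinearMap.smul_apply, LinearMap.smul_apply, smul_eq_mul] at h1
    · rw [hT' v, map_prod]
      show (∏ j, bilC (D j) (1 ⊗ₜ v (ε (Sum.inl j))) (1 ⊗ₜ v (ε (Sum.inr j)))) = _
      exact Finset.prod_congr rfl fun j _ => bilC_tmul (D j) _ _
  | zero =>
    refine ⟨0, Submodule.zero_mem _, fun v => ?_⟩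
    rw [zero_apply, zero_apply, map_zero]
  | add x y _ _ hx hy =>
    obtain ⟨X, hX, hX'⟩ := hx
    obtain ⟨Y, hY, hY'⟩ := hy
    refine ⟨X + Y, Submodule.add_mem _ hX hY, fun v => ?_⟩
    rw [add_apply, add_apply, map_add, hX', hY']
  | smul a x _ hx =>
    obtain ⟨X, hX, hX'⟩ := hx
    refine ⟨algebraMap ℚ_[l] ℂ a • X, Submodule.smul_mem _ _ hX, fun v => ?_⟩
    rw [smul_apply, smul_apply, hX', smul_eq_mul, smul_eq_mul, map_mul]

theorem core_of_four {K : Type} [Field K] {l : ℕ} [Fact l.Prime] [Algebra ℚ_[l] ℂ] {V : Type} [AddCommGroup V]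
    [Module ℚ_[l] V] [FiniteDimensional ℚ_[l] V] {ρ : Representation ℚ_[l] (GalK K) V} {P : Module.End ℚ_[l] V}
    (h : FourTate ρ P) (L : IntermediateField K (AlgebraicClosure K))
    (hL : FiniteDimensional K L) (i : ℤ) (T : MultilinearMap ℂ (fun _ : Fin 4 => ℂ ⊗[ℚ_[l]] V) ℂ)
    (hT : IsTt (repC ρ) (charC (cyc K l)) L.fixingSubgroup i T) (hP : ∀ w, T (fun j => P.baseChange ℂ (w j)) = T w) :
    T ∈ Submodule.span ℂ {T' | ∃ (L' : IntermediateField K (AlgebraicClosure K)) (m : ℕ)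
      (ε : Fin m ⊕ Fin m ≃ Fin 4) (β : Fin m → (ℂ ⊗[ℚ_[l]] V) →ₗ[ℂ] (ℂ ⊗[ℚ_[l]] V) →ₗ[ℂ] ℂ), FiniteDimensional K L' ∧
      (∀ j, TGR.IsPairing (repC ρ) (charC (cyc K l)) L'.fixingSubgroup (β j)) ∧
      ∀ v, T' v = ∏ j, β j (v (ε (Sum.inl j))) (v (ε (Sum.inr j)))} := by
  classical
  let b := Module.finBasis ℚ_[l] V
  let c := Module.Basis.ofVectorSpace ℚ_[l] ℂ
  let R : MultilinearMap ℚ_[l] (fun _ : Fin 4 => V) ℂ :=
    (T.restrictScalars ℚ_[l]).compLinearMap fun _ => TensorProduct.mk ℚ_[l] ℂ V 1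
  have hR : ∀ v, R v = T (fun a => 1 ⊗ₜ v a) := fun v => rfl
  have hRs : ∀ s ∈ L.fixingSubgroup, ∀ v, R (fun a => ρ s (v a)) =
      ((cyc K l s ^ i : ℚ_[l]ˣ) : ℚ_[l]) • R v := by
    intro s hs v
    have h1 := hT s hs (fun a => 1 ⊗ₜ v a)
    have h2 : (fun a => repC ρ s ((1 : ℂ) ⊗ₜ[ℚ_[l]] v a)) = fun a => (1 : ℂ) ⊗ₜ[ℚ_[l]] ρ s (v a) :=
      funext fun a => LinearMap.baseChange_tmul _ _ _
    rw [h2, charC_zpow] at h1
    rw [hR, hR, h1, Algebra.smul_def]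
  have hRP : ∀ v, R (fun a => P (v a)) = R v := by
    intro v
    have h1 := hP (fun a => 1 ⊗ₜ v a)
    have h2 : (fun a => P.baseChange ℂ ((1 : ℂ) ⊗ₜ[ℚ_[l]] v a)) = fun a => (1 : ℂ) ⊗ₜ[ℚ_[l]] P (v a) :=
      funext fun a => LinearMap.baseChange_tmul _ _ _
    rw [h2] at h1
    rw [hR, hR, h1]
  have hTC : ∀ j, ∃ TC ∈ Submodule.span ℂ {T' : MultilinearMap ℂ (fun _ : Fin 4 => ℂ ⊗[ℚ_[l]] V) ℂ |
      ∃ (L' : IntermediateField K (AlgebraicClosure K)) (m : ℕ)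
      (ε : Fin m ⊕ Fin m ≃ Fin 4) (β : Fin m → (ℂ ⊗[ℚ_[l]] V) →ₗ[ℂ] (ℂ ⊗[ℚ_[l]] V) →ₗ[ℂ] ℂ), FiniteDimensional K L' ∧
      (∀ j, TGR.IsPairing (repC ρ) (charC (cyc K l)) L'.fixingSubgroup (β j)) ∧
      ∀ v, T' v = ∏ j, β j (v (ε (Sum.inl j))) (v (ε (Sum.inr j)))},
      ∀ v : Fin 4 → V, TC (fun a => 1 ⊗ₜ v a) = algebraMap ℚ_[l] ℂ (c.repr (R v) j) := by
    intro j
    refine Y1_lift ((c.coord j).compMultilinearMap R)
      (Y1_multi h L hL i ((c.coord j).compMultilinearMap R) (fun s hs v => ?_) fun v => ?_)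
    · rw [LinearMap.compMultilinearMap_apply, LinearMap.compMultilinearMap_apply, hRs s hs v, map_smul, smul_eq_mul]
    · rw [LinearMap.compMultilinearMap_apply, LinearMap.compMultilinearMap_apply, hRP v]
  choose TC hTC1 hTC2 using hTC
  let J := Finset.univ.biUnion fun f : Fin 4 → Fin (Module.finrank ℚ_[l] V) => (c.repr (R fun a => b (f a))).support
  have hsum : T = ∑ j ∈ J, c j • TC j := by
    refine Module.Basis.ext_multilinear (fun _ => b.baseChange ℂ) fun f => ?_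
    have h3 : (fun a => b.baseChange ℂ (f a)) = fun a => (1 : ℂ) ⊗ₜ[ℚ_[l]] b (f a) :=
      funext fun a => Module.Basis.baseChange_apply ℂ b (f a)
    rw [h3, sum_apply, ← hR fun a => b (f a)]
    have h4 : R (fun a => b (f a)) = ∑ j ∈ J, c.repr (R fun a => b (f a)) j • c j := by
      conv_lhs => rw [← c.linearCombination_repr (R fun a => b (f a))]
      rw [Finsupp.linearCombination_apply]
      refine Finsupp.sum_of_support_subset _ (fun x hx => ?_) _ fun x _ => zero_smul _ _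
      exact Finset.mem_biUnion.2 ⟨f, Finset.mem_univ _, hx⟩
    rw [h4]
    refine Finset.sum_congr rfl fun j _ => ?_
    rw [smul_apply, hTC2 j fun a => b (f a), smul_eq_mul, mul_comm, ← Algebra.smul_def]
  rw [hsum]
  exact Submodule.sum_mem _ fun j _ => Submodule.smul_mem _ _ (hTC1 j)

theorem pairing_top {H : Type} [AddCommGroup H] [Module ℂ H] [FiniteDimensional ℂ H] {G : Type} [Group G] {J : Type} [Fintype J]
    {e : H →ₗ[ℂ] H →ₗ[ℂ] ℂ} {bar : J → J} {p : J → Module.End ℂ H} {ρ : Representation ℂ G H} {μ : G →* ℂˣ}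
    (hB : Big e bar p ρ μ) (G'' : Subgroup G) (hG'' : G''.FiniteIndex) (β : H →ₗ[ℂ] H →ₗ[ℂ] ℂ) (hβ : TGR.IsPairing ρ μ G'' β)
    (s : G) (x y : H) : β (ρ s x) (ρ s y) = (μ s : ℂ) * β x y := by
  have hb := hB.blk
  have hinj : Function.Injective e := by
    rw [injective_iff_map_eq_zero]
    intro v hv
    exact hb.nd v fun w => by rw [hv, LinearMap.zero_apply]
  have hdim : finrank ℂ H = finrank ℂ (H →ₗ[ℂ] ℂ) := (Subspace.dual_finrank_eq (K := ℂ) (V := H)).symm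
  obtain ⟨φ, hφ⟩ : ∃ φ : Module.End ℂ H, ∀ x, e (φ x) = β x := by
    refine ⟨(LinearMap.linearEquivOfInjective e hinj hdim).symm.toLinearMap ∘ₗ β, fun x => ?_⟩
    exact (LinearMap.linearEquivOfInjective e hinj hdim).apply_symm_apply (β x)
  have h1 : ∀ s ∈ G'', φ * ρ s = ρ s * φ := by
    intro s hs
    refine LinearMap.ext fun x => ?_
    have h2 : ∀ w, e (φ (ρ s x) - ρ s (φ x)) w = 0 := by
      intro w
      have h3 : w = ρ s (ρ s⁻¹ w) := by
        rw [← Module.End.mul_apply, ← map_mul, mul_inv_cancel, map_one, Module.End.one_apply]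
      rw [map_sub, LinearMap.sub_apply, h3, hB.he, hφ, hφ, hβ s hs]
      ring
    exact sub_eq_zero.1 (hb.nd _ h2)
  have h2 : ∀ Y ∈ Submodule.span ℂ {Y | ∃ g ∈ G'', Y = ρ g}, φ * Y = Y * φ := by
    intro Y hY
    induction hY using Submodule.span_induction with
    | mem x hx =>
      obtain ⟨s, hs, rfl⟩ := hx
      exact h1 s hs
    | zero => rw [mul_zero, zero_mul]
    | add x y _ _ hx hy => rw [mul_add, add_mul, hx, hy]
    | smul a x _ hx => rw [mul_smul_comm, smul_mul_assoc, hx]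
  have h3 : φ (ρ s x) = ρ s (φ x) := LinearMap.congr_fun (h2 _ (hB.dens G'' hG'' (ρ s) fun Y hY => hY s)) x
  rw [← hφ, ← hφ, h3, hB.he]

theorem core_of_four' {K : Type} [Field K] {l : ℕ} [Fact l.Prime] [Algebra ℚ_[l] ℂ] {V : Type} [AddCommGroup V]
    [Module ℚ_[l] V] [FiniteDimensional ℚ_[l] V] {ρ : Representation ℚ_[l] (GalK K) V} {P : Module.End ℚ_[l] V}
    (h : FourTate ρ P) {J : Type} [Fintype J] {e : (ℂ ⊗[ℚ_[l]] V) →ₗ[ℂ] (ℂ ⊗[ℚ_[l]] V) →ₗ[ℂ] ℂ} {bar : J → J}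
    {p : J → Module.End ℂ (ℂ ⊗[ℚ_[l]] V)} (hB : Big e bar p (repC ρ) (charC (cyc K l)))
    (T : MultilinearMap ℂ (fun _ : Fin 4 => ℂ ⊗[ℚ_[l]] V) ℂ)
    (hT : IsTt (repC ρ) (charC (cyc K l)) ⊤ 2 T) (hP : ∀ w, T (fun j => P.baseChange ℂ (w j)) = T w) :
    T ∈ Submodule.span ℂ {T' : MultilinearMap ℂ (fun _ : Fin 4 => ℂ ⊗[ℚ_[l]] V) ℂ | IsPg (repC ρ) (charC (cyc K l)) T'} := by
  have h1 := core_of_four h ⊥ inferInstance 2 T (fun s _ v => hT s (Subgroup.mem_top s) v) hP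
  refine Submodule.span_mono ?_ h1
  rintro T' ⟨L', m, ε, β, hL', hβ, hT'⟩
  exact ⟨m, ε, β, fun j s u v => pairing_top hB L'.fixingSubgroup (finiteIndex_fixing L') (β j) (hβ j) s u v, hT'⟩

end TUT
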