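import Mathlib

/-!
# The trace form on a Lie algebra which is normalised by a group with many elements is not degenerate
-/

set_option autoImplicit false

namespace TUT

open Module

section

attribute [local instance 100] LieRing.ofAssociativeRing

private theorem Y2_solvable {V : Type} [AddCommGroup V] [Module ℂ V] [FiniteDimensional ℂ V]
    (I : LieSubalgebra ℂ (Module.End ℂ V)) (h : ∀ x ∈ I, ∀ y ∈ I, LinearMap.trace ℂ V (x * y) = 0) :
    LieAlgebra.IsSolvable I := by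
  have h0 : LieModule.traceForm ℂ I V = 0 := by
    ext ⟨x, hx⟩ ⟨y, hy⟩
    exact h x hx y hy
  have h1 := LieModule.isNilpotent_derivedSeries_of_traceForm_eq_zero h0
  have h2 : LieRing.IsNilpotent (LieAlgebra.derivedSeries ℂ I 1) := by
    rw [LieAlgebra.isNilpotent_iff_forall (R := ℂ)]
    rintro ⟨x, hx⟩
    apply LieSubalgebra.isNilpotent_ad_of_isNilpotent_ad
      ((LieAlgebra.derivedSeries ℂ I 1 : LieIdeal ℂ I) : LieSubalgebra ℂ I) (x := ⟨x, hx⟩)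
    apply LieSubalgebra.isNilpotent_ad_of_isNilpotent_ad I (x := x)
    apply LieAlgebra.ad_nilpotent_of_nilpotent
    exact (LieModule.isNilpotent_iff_forall' (R := ℂ)).mp h1 ⟨x, hx⟩
  obtain ⟨m, hm⟩ := LieAlgebra.IsSolvable.solvable ℂ (LieAlgebra.derivedSeries ℂ I 1)
  rw [LieIdeal.derivedSeries_eq_bot_iff] at hm
  refine LieAlgebra.IsSolvable.mk (R := ℂ) (k := m + 1) ?_
  rw [LieAlgebra.derivedSeries_def, LieAlgebra.derivedSeriesOfIdeal_add]
  exact hm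

/-- Lie's theorem for the kernel of the trace form. -/
private theorem Y2_weight {U : Type} [AddCommGroup U] [Module ℂ U] [FiniteDimensional ℂ U] [Nontrivial U]
    (J : Submodule ℂ (Module.End ℂ U)) (hlie : ∀ X ∈ J, ∀ Y ∈ J, X * Y - Y * X ∈ J)
    (h : ∀ X ∈ J, ∀ Y ∈ J, LinearMap.trace ℂ U (X * Y) = 0) :
    ∃ (χ : J →ₗ[ℂ] ℂ) (v : U), v ≠ 0 ∧ ∀ X : J, (X : Module.End ℂ U) v = χ X • v := by
  let I : LieSubalgebra ℂ (Module.End ℂ U) := { J with lie_mem' := fun {x y} hx hy => hlie x hx y hy }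
  have hsol : LieAlgebra.IsSolvable I := Y2_solvable I h
  obtain ⟨χ, hχ⟩ := LieModule.exists_nontrivial_weightSpace_of_isSolvable ℂ I U
  obtain ⟨⟨v, hv⟩, hv0⟩ := exists_ne (0 : LieModule.weightSpace U χ)
  rw [LieModule.mem_weightSpace] at hv
  refine ⟨⟨⟨fun X => χ ⟨X.1, X.2⟩, fun X Y => map_add χ ⟨X.1, X.2⟩ ⟨Y.1, Y.2⟩⟩, fun c X => map_smul χ c ⟨X.1, X.2⟩⟩, v,
    fun h0 => hv0 (Subtype.ext h0), fun X => hv ⟨X.1, X.2⟩⟩

end

/-- The conjugation by `g` on `J`. -/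
private def Y2_c {U : Type} [AddCommGroup U] [Module ℂ U] {G : Type} [Group G] (ρ : Representation ℂ G U)
    (J : Submodule ℂ (Module.End ℂ U)) (hnorm : ∀ g, ∀ X ∈ J, ρ g * X * ρ g⁻¹ ∈ J) (g : G) : J →ₗ[ℂ] J where
  toFun X := ⟨ρ g * X.1 * ρ g⁻¹, hnorm g X.1 X.2⟩
  map_add' X Y := Subtype.ext (by
    show ρ g * (X.1 + Y.1) * ρ g⁻¹ = ρ g * X.1 * ρ g⁻¹ + ρ g * Y.1 * ρ g⁻¹
    rw [mul_add, add_mul])
  map_smul' a X := Subtype.ext (by
    show ρ g * (a • X.1) * ρ g⁻¹ = a • (ρ g * X.1 * ρ g⁻¹)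
    rw [mul_smul_comm, smul_mul_assoc])

private theorem Y2_inv {U : Type} [AddCommGroup U] [Module ℂ U] {G : Type} [Group G] (ρ : Representation ℂ G U) (g : G) :
    ρ g * ρ g⁻¹ = 1 := by
  rw [← map_mul, mul_inv_cancel, map_one]

private theorem Y2_inv' {U : Type} [AddCommGroup U] [Module ℂ U] {G : Type} [Group G] (ρ : Representation ℂ G U) (g : G) :
    ρ g⁻¹ * ρ g = 1 := by
  rw [← map_mul, inv_mul_cancel, map_one]

private theorem Y2_c_mul {U : Type} [AddCommGroup U] [Module ℂ U] {G : Type} [Group G] (ρ : Representation ℂ G U)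
    (J : Submodule ℂ (Module.End ℂ U)) (hnorm : ∀ g, ∀ X ∈ J, ρ g * X * ρ g⁻¹ ∈ J) (g h : G) (X : J) :
    Y2_c ρ J hnorm (g * h) X = Y2_c ρ J hnorm g (Y2_c ρ J hnorm h X) := Subtype.ext (by
  show ρ (g * h) * X.1 * ρ (g * h)⁻¹ = ρ g * (ρ h * X.1 * ρ h⁻¹) * ρ g⁻¹
  rw [mul_inv_rev, map_mul, map_mul]
  simp only [mul_assoc])

private theorem Y2_c_one {U : Type} [AddCommGroup U] [Module ℂ U] {G : Type} [Group G] (ρ : Representation ℂ G U)
    (J : Submodule ℂ (Module.End ℂ U)) (hnorm : ∀ g, ∀ X ∈ J, ρ g * X * ρ g⁻¹ ∈ J) (X : J) :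
    Y2_c ρ J hnorm 1 X = X := Subtype.ext (by
  show ρ 1 * X.1 * ρ 1⁻¹ = X.1
  rw [inv_one, map_one, one_mul, mul_one])

private theorem Y2_finite {U : Type} [AddCommGroup U] [Module ℂ U] [FiniteDimensional ℂ U]
    (J : Submodule ℂ (Module.End ℂ U)) :
    {χ : J →ₗ[ℂ] ℂ | ∃ v : U, v ≠ 0 ∧ ∀ X : J, (X : Module.End ℂ U) v = χ X • v}.Finite := by
  let b := Module.finBasis ℂ J
  have h1 : (Set.pi Set.univ fun i => {μ : ℂ | ((b i : J) : Module.End ℂ U).HasEigenvalue μ}).Finite :=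
    Set.Finite.pi fun i => Module.End.finite_hasEigenvalue ((b i : J) : Module.End ℂ U)
  refine Set.Finite.of_finite_image (f := fun (χ : J →ₗ[ℂ] ℂ) i => χ (b i)) (h1.subset ?_) ?_
  · rintro _ ⟨χ, ⟨v, hv0, hv⟩, rfl⟩ i _
    exact Module.End.hasEigenvalue_of_hasEigenvector (x := v) ⟨Module.End.mem_eigenspace_iff.2 (hv (b i)), hv0⟩
  · intro χ _ χ' _ h
    exact b.ext fun i => congrFun h i

theorem trace_nondeg_grp {U : Type} [AddCommGroup U] [Module ℂ U] [FiniteDimensional ℂ U] [Nontrivial U] {G : Type} [Group G]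
    (ρ : Representation ℂ G U)
    (hd : ∀ G' : Subgroup G, G'.FiniteIndex → ∀ X : Module.End ℂ U, X ∈ Submodule.span ℂ {Y | ∃ g ∈ G', Y = ρ g})
    (R : Submodule ℂ (Module.End ℂ U)) (hlie : ∀ X ∈ R, ∀ Y ∈ R, X * Y - Y * X ∈ R)
    (hnorm : ∀ g, ∀ X ∈ R, ρ g * X * ρ g⁻¹ ∈ R) {X : Module.End ℂ U} (hX : X ∈ R)
    (h : ∀ Y ∈ R, LinearMap.trace ℂ U (X * Y) = 0) : X = 0 := by
  have htrc : ∀ x y z : Module.End ℂ U,
      LinearMap.trace ℂ U ((x * y - y * x) * z) = LinearMap.trace ℂ U (y * (z * x - x * z)) := by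
    intro x y z
    have e1 : (x * y - y * x) * z = x * (y * z) - y * (x * z) := by
      rw [sub_mul, mul_assoc, mul_assoc]
    have e2 : y * (z * x - x * z) = y * z * x - y * (x * z) := by
      rw [mul_sub, mul_assoc]
    rw [e1, e2, map_sub, map_sub, LinearMap.trace_mul_comm ℂ x (y * z)]
  let J : Submodule ℂ (Module.End ℂ U) :=
    { carrier := {x | x ∈ R ∧ ∀ Y ∈ R, LinearMap.trace ℂ U (x * Y) = 0}
      add_mem' := fun {x y} hx hy => ⟨R.add_mem hx.1 hy.1, fun Y hY => by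
        rw [add_mul, map_add, hx.2 Y hY, hy.2 Y hY, add_zero]⟩
      zero_mem' := ⟨R.zero_mem, fun Y _ => by rw [zero_mul, map_zero]⟩
      smul_mem' := fun c x hx => ⟨R.smul_mem c hx.1, fun Y hY => by
        rw [smul_mul_assoc, map_smul, hx.2 Y hY, smul_zero]⟩ }
  have hJlie : ∀ x ∈ J, ∀ y ∈ J, x * y - y * x ∈ J := fun x hx y hy => ⟨hlie x hx.1 y hy.1, fun Y hY => by
    rw [htrc]
    exact hy.2 _ (hlie Y hY x hx.1)⟩
  have hJ : ∀ g, ∀ x ∈ J, ρ g * x * ρ g⁻¹ ∈ J := fun g x hx => ⟨hnorm g x hx.1, fun Y hY => by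
    have h1 : ρ g * x * ρ g⁻¹ * Y = ρ g * (x * (ρ g⁻¹ * Y)) := by simp only [mul_assoc]
    have h2 : x * (ρ g⁻¹ * Y) * ρ g = x * (ρ g⁻¹ * Y * ρ (g⁻¹)⁻¹) := by rw [inv_inv, mul_assoc]
    rw [h1, LinearMap.trace_mul_comm, h2]
    exact hx.2 _ (hnorm g⁻¹ Y hY)⟩
  obtain ⟨χ, v, hv0, hv⟩ := Y2_weight J hJlie fun x hx y hy => hx.2 y hy.1
  let G' : Subgroup G :=
    { carrier := {g | ∀ x, χ (Y2_c ρ J hJ g x) = χ x}
      mul_mem' := fun {g k} hg hk x => by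
        rw [Y2_c_mul, hg, hk]
      one_mem' := fun x => by rw [Y2_c_one]
      inv_mem' := fun {g} hg x => by
        rw [← hg (Y2_c ρ J hJ g⁻¹ x), ← Y2_c_mul, mul_inv_cancel, Y2_c_one] }
  have hG' : ∀ g, g ∈ G' ↔ ∀ x, χ (Y2_c ρ J hJ g x) = χ x := fun g => Iff.rfl
  have hmove : ∀ (g : G) (w : U), (∀ x : J, (x : Module.End ℂ U) w = χ x • w) →
      ∀ x : J, (x : Module.End ℂ U) (ρ g w) = χ (Y2_c ρ J hJ g⁻¹ x) • ρ g w := by
    intro g w hw x
    have h1 : (x : Module.End ℂ U) (ρ g w) = ρ g ((ρ g⁻¹ * (x : Module.End ℂ U) * ρ (g⁻¹)⁻¹) w) := by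
      have h2 : ρ g * (ρ g⁻¹ * (x : Module.End ℂ U) * ρ (g⁻¹)⁻¹) = (x : Module.End ℂ U) * ρ g := by
        rw [inv_inv, ← mul_assoc, ← mul_assoc, Y2_inv, one_mul]
      exact (LinearMap.congr_fun h2 w).symm
    rw [h1]
    have h3 := hw (Y2_c ρ J hJ g⁻¹ x)
    change (ρ g⁻¹ * (x : Module.End ℂ U) * ρ (g⁻¹)⁻¹) w = _ at h3
    rw [h3, map_smul]
  have hfin : G'.FiniteIndex := by
    have hS := Y2_finite J
    let φ : G → {χ : J →ₗ[ℂ] ℂ | ∃ v : U, v ≠ 0 ∧ ∀ X : J, (X : Module.End ℂ U) v = χ X • v} := fun g =>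
      ⟨χ.comp (Y2_c ρ J hJ g⁻¹), ρ g v, fun h0 => hv0 (by
        have h1 := LinearMap.congr_fun (Y2_inv' ρ g) v
        change ρ g⁻¹ (ρ g v) = v at h1
        rw [← h1, h0, map_zero]), hmove g v hv⟩
    have hφ : ∀ g k : G, g⁻¹ * k ∈ G' ↔ φ g = φ k := by
      intro g k
      rw [hG']
      constructor
      · intro h1
        refine Subtype.ext (LinearMap.ext fun x => ?_)
        change χ (Y2_c ρ J hJ g⁻¹ x) = χ (Y2_c ρ J hJ k⁻¹ x)
        have h2 := h1 (Y2_c ρ J hJ k⁻¹ x)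
        rw [← Y2_c_mul, mul_assoc, mul_inv_cancel, mul_one] at h2
        exact h2
      · intro h1 x
        have h2 := LinearMap.congr_fun (congrArg Subtype.val h1) (Y2_c ρ J hJ k x)
        change χ (Y2_c ρ J hJ g⁻¹ (Y2_c ρ J hJ k x)) = χ (Y2_c ρ J hJ k⁻¹ (Y2_c ρ J hJ k x)) at h2
        rw [← Y2_c_mul, ← Y2_c_mul, inv_mul_cancel, Y2_c_one] at h2
        exact h2
    have hfs : Finite {χ : J →ₗ[ℂ] ℂ | ∃ v : U, v ≠ 0 ∧ ∀ X : J, (X : Module.End ℂ U) v = χ X • v} := hS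
    have hq : Finite (G ⧸ G') := by
      refine Finite.of_injective (β := {χ : J →ₗ[ℂ] ℂ | ∃ v : U, v ≠ 0 ∧ ∀ X : J, (X : Module.End ℂ U) v = χ X • v})
        (Quotient.lift φ fun g k hgk => (hφ g k).1 (QuotientGroup.leftRel_apply.1 hgk)) ?_
      intro x y
      refine Quotient.inductionOn₂ x y fun g k hgk => ?_
      exact Quotient.sound (QuotientGroup.leftRel_apply.2 ((hφ g k).2 hgk))
    exact Subgroup.finiteIndex_of_finite_quotient
  have hall : ∀ (Z : Module.End ℂ U) (w : U), (∀ x : J, (x : Module.End ℂ U) w = χ x • w) →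
      ∀ x : J, (x : Module.End ℂ U) (Z w) = χ x • Z w := by
    intro Z w hw
    have hZ := hd G' hfin Z
    induction hZ using Submodule.span_induction with
    | mem Z hZ =>
      obtain ⟨g, hg, rfl⟩ := hZ
      intro x
      rw [hmove g w hw x, (hG' g⁻¹).1 (G'.inv_mem hg) x]
    | zero => intro x; rw [LinearMap.zero_apply, map_zero, smul_zero]
    | add Z₁ Z₂ _ _ h1 h2 => intro x; rw [LinearMap.add_apply, map_add, h1 x, h2 x, smul_add]
    | smul a Z _ h1 => intro x; rw [LinearMap.smul_apply, map_smul, h1 x, smul_comm]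
  obtain ⟨f, hf⟩ : ∃ f : Module.Dual ℂ U, f v ≠ 0 := by
    by_contra hcon
    push Not at hcon
    exact hv0 ((Module.forall_dual_apply_eq_zero_iff ℂ v).1 hcon)
  have hscal : ∀ (x : J) (w : U), (x : Module.End ℂ U) w = χ x • w := by
    intro x w
    have h1 := hall (f.smulRight ((f v)⁻¹ • w)) v hv x
    rw [LinearMap.smulRight_apply, smul_smul, mul_inv_cancel₀ hf, one_smul] at h1
    exact h1
  have hXJ : X ∈ J := ⟨hX, h⟩
  have h1 : X = χ ⟨X, hXJ⟩ • (1 : Module.End ℂ U) := LinearMap.ext fun w => hscal ⟨X, hXJ⟩ w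
  have h2 := h X hX
  rw [h1, smul_mul_smul_comm, one_mul, map_smul, LinearMap.trace_one, smul_eq_mul] at h2
  have h3 : (Module.finrank ℂ U : ℂ) ≠ 0 := Nat.cast_ne_zero.2 Module.finrank_pos.ne'
  have h4 : χ ⟨X, hXJ⟩ = 0 := by
    rcases mul_eq_zero.1 h2 with h5 | h5
    · exact mul_self_eq_zero.1 h5
    · exact absurd h5 h3
  rw [h1, h4, zero_smul]

end TUT
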