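import Pool.Agent.Lib.MP_021685_agUX.Y2
import Pool.Agent.Lib.MP_021685_agUT.T2

/-!
# The equivariant projector onto the Lie algebra of an irreducible part
-/

set_option autoImplicit false

namespace TUT

open Module

section Y3a

variable {H : Type} [AddCommGroup H] [Module ℂ H] [FiniteDimensional ℂ H] {G : Type} [Group G] {J : Type} [Fintype J]
  {e : H →ₗ[ℂ] H →ₗ[ℂ] ℂ} {bar : J → J} {p : J → End ℂ H} {ρ : Representation ℂ G H} {μ : G →* ℂˣ}

variable {N : J → ℕ} {ε : J → End ℂ H} {u v : ∀ f, Fin (N f) → End ℂ H}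

omit [FiniteDimensional ℂ H] in
private theorem Y3_mulmem {X Y : End ℂ H} (hX : X ∈ comm ρ) (hY : Y ∈ comm ρ) : X * Y ∈ comm ρ := fun s => by
  rw [← mul_assoc, hX s, mul_assoc, hY s, mul_assoc]

omit [FiniteDimensional ℂ H] in
private theorem Y3_ep (hS : MSys e bar p ρ N ε u v) (hB : Big e bar p ρ μ) (f : J) : ε f * p f = ε f := by
  rw [← hB.central f (ε f) (hS.unit f).mem, (hS.unit f).pf]

omit [FiniteDimensional ℂ H] in
private theorem Y3_pu (hS : MSys e bar p ρ N ε u v) (hB : Big e bar p ρ μ) (f : J) (j : Fin (N f)) :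
    u f j * p f = u f j := by
  rw [← (hS.unit f).ue j, mul_assoc, Y3_ep hS hB f]

omit [FiniteDimensional ℂ H] [Fintype J] in
private theorem Y3_pv (hS : MSys e bar p ρ N ε u v) (f : J) (j : Fin (N f)) :
    p f * v f j = v f j := by
  rw [← (hS.unit f).ev j, ← mul_assoc, (hS.unit f).pf]

omit [FiniteDimensional ℂ H] [Fintype J] in
/-- The coefficients of `Y` in the block `f`. -/
private theorem Y3_coef (hS : MSys e bar p ρ N ε u v) (f : J) (Y : End ℂ H) (hY : Y ∈ comm ρ) :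
    ∃ c : Fin (N f) → Fin (N f) → ℂ, ∀ i j, v f i * Y * u f j = c i j • ε f := by
  have h : ∀ i j, ∃ c : ℂ, v f i * Y * u f j = c • ε f := fun i j => by
    obtain ⟨c, hc⟩ := (hS.unit f).prim (v f i * Y * u f j)
      (Y3_mulmem (Y3_mulmem ((hS.unit f).vmem i) hY) ((hS.unit f).umem j))
    refine ⟨c, ?_⟩
    rw [← hc, mul_assoc (ε f), mul_assoc (v f i * Y), (hS.unit f).ue j, ← mul_assoc (ε f), ← mul_assoc (ε f),
      (hS.unit f).ev i]
  choose c hc using h
  exact ⟨c, hc⟩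

omit [FiniteDimensional ℂ H] in
private theorem Y3_comm (hS : MSys e bar p ρ N ε u v) (hB : Big e bar p ρ μ) (f : J) (X' Y : End ℂ H)
    (hY : Y ∈ comm ρ) :
    (∑ j, u f j * X' * v f j) * Y = Y * ∑ j, u f j * X' * v f j := by
  obtain ⟨c, hc⟩ := Y3_coef hS f Y hY
  have h1 : ∀ j, Y * u f j = ∑ i, c i j • u f i := fun j => by
    have h2 : Y * u f j = p f * (Y * u f j) := by
      rw [hB.central f (Y * u f j) (Y3_mulmem hY ((hS.unit f).umem j)), mul_assoc, Y3_pu hS hB f j]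
    rw [h2, ← (hS.unit f).sum, Finset.sum_mul]
    refine Finset.sum_congr rfl fun i _ => ?_
    rw [mul_assoc, ← mul_assoc (v f i), hc i j, mul_smul_comm, (hS.unit f).ue i]
  have h3 : ∀ i, v f i * Y = ∑ j, c i j • v f j := fun i => by
    have h2 : v f i * Y = v f i * Y * p f := by
      rw [← hB.central f (v f i * Y) (Y3_mulmem ((hS.unit f).vmem i) hY), ← mul_assoc, Y3_pv hS f i]
    rw [h2, ← (hS.unit f).sum, Finset.mul_sum]
    refine Finset.sum_congr rfl fun j _ => ?_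
    rw [← mul_assoc, hc i j, smul_mul_assoc, (hS.unit f).ev j]
  rw [Finset.sum_mul, Finset.mul_sum]
  have h4 : ∀ i, u f i * X' * v f i * Y = ∑ j, c i j • (u f i * X' * v f j) := fun i => by
    rw [mul_assoc (u f i * X'), h3 i, Finset.mul_sum]
    exact Finset.sum_congr rfl fun j _ => mul_smul_comm _ _ _
  have h5 : ∀ j, Y * (u f j * X' * v f j) = ∑ i, c i j • (u f i * X' * v f j) := fun j => by
    rw [← mul_assoc, ← mul_assoc, h1 j, Finset.sum_mul, Finset.sum_mul]
    exact Finset.sum_congr rfl fun i _ => by rw [smul_mul_assoc, smul_mul_assoc]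
  rw [Finset.sum_congr rfl fun i _ => h4 i, Finset.sum_congr rfl fun j _ => h5 j, Finset.sum_comm]

omit [FiniteDimensional ℂ H] in
private theorem Y3_blockf (hS : MSys e bar p ρ N ε u v) (hB : Big e bar p ρ μ) (f : J) (X' : End ℂ H)
    (hX' : ε f * X' = X' * ε f) :
    ε f * (∑ j, u f j * X' * v f j) * ε f = X' * ε f := by
  obtain ⟨a, ha⟩ : ∃ a : Fin (N f) → ℂ, ∀ j, ε f * u f j = a j • ε f := by
    have h : ∀ j, ∃ c : ℂ, ε f * u f j = c • ε f := fun j => by
      obtain ⟨c, hc⟩ := (hS.unit f).prim (u f j) ((hS.unit f).umem j)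
      exact ⟨c, by rw [← hc, mul_assoc, (hS.unit f).ue j]⟩
    choose c hc using h
    exact ⟨c, hc⟩
  obtain ⟨b, hb⟩ : ∃ b : Fin (N f) → ℂ, ∀ j, v f j * ε f = b j • ε f := by
    have h : ∀ j, ∃ c : ℂ, v f j * ε f = c • ε f := fun j => by
      obtain ⟨c, hc⟩ := (hS.unit f).prim (v f j) ((hS.unit f).vmem j)
      exact ⟨c, by rw [← hc, (hS.unit f).ev j]⟩
    choose c hc using h
    exact ⟨c, hc⟩
  have h1 : (∑ j, a j * b j) • ε f = ε f := by
    have h2 : ε f * p f * ε f = ε f := by rw [Y3_ep hS hB f, (hS.unit f).idem]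
    rw [← (hS.unit f).sum, Finset.mul_sum, Finset.sum_mul] at h2
    have h3 : ∀ j, ε f * (u f j * v f j) * ε f = (a j * b j) • ε f := fun j => by
      rw [← mul_assoc, mul_assoc, hb j, ha j, smul_mul_smul_comm, (hS.unit f).idem]
    rw [Finset.sum_congr rfl fun j _ => h3 j, ← Finset.sum_smul] at h2
    exact h2
  have h4 : ∀ j, ε f * (u f j * X' * v f j) * ε f = (a j * b j) • (X' * ε f) := fun j => by
    rw [mul_assoc (u f j), ← mul_assoc (ε f), mul_assoc, mul_assoc X', hb j, ha j, smul_mul_assoc, mul_smul_comm,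
      mul_smul_comm, ← mul_assoc, hX', mul_assoc, (hS.unit f).idem, smul_smul]
  rw [Finset.mul_sum, Finset.sum_mul, Finset.sum_congr rfl fun j _ => h4 j, ← Finset.sum_smul, ← mul_smul_comm, h1]

omit [FiniteDimensional ℂ H] in
/-- Every endomorphism of the image of `ε f` is induced by an element of the span of the `ρ g`, `g ∈ G'`. -/
private theorem Y3_dens (hS : MSys e bar p ρ N ε u v) (hB : Big e bar p ρ μ) (f : J) (X' : End ℂ H)
    (hX' : ε f * X' * ε f = X') (G' : Subgroup G) (hG' : G'.FiniteIndex) :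
    ∃ Z ∈ Submodule.span ℂ {Y | ∃ g ∈ G', Y = ρ g}, Z * ε f = X' ∧ ε f * Z = X' ∧ ∀ Y ∈ comm ρ, Z * Y = Y * Z := by
  have h1 : ε f * X' = X' := by rw [← hX', ← mul_assoc, ← mul_assoc, (hS.unit f).idem]
  have h2 : X' * ε f = X' := by
    conv_lhs => rw [← hX', mul_assoc, (hS.unit f).idem]
    exact hX'
  have hc : ∀ Y ∈ comm ρ, (∑ j, u f j * X' * v f j) * Y = Y * ∑ j, u f j * X' * v f j := fun Y hY =>
    Y3_comm hS hB f X' Y hY
  have h3 : (∑ j, u f j * X' * v f j) * ε f = X' := by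
    have h4 := Y3_blockf hS hB f X' (h1.trans h2.symm)
    rw [mul_assoc, hc (ε f) (hS.unit f).mem, ← mul_assoc, (hS.unit f).idem, h2] at h4
    rw [hc (ε f) (hS.unit f).mem]
    exact h4
  exact ⟨_, hB.dens G' hG' _ hc, h3, by rw [← hc (ε f) (hS.unit f).mem, h3], hc⟩

end Y3a

section Y3b

variable {H : Type} [AddCommGroup H] [Module ℂ H]

/-- The restriction to the image of the idempotent `q`, as a linear map. -/
private noncomputable def Y3_C (q : End ℂ H) : End ℂ H →ₗ[ℂ] End ℂ (LinearMap.range q) where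
  toFun X := cut q X
  map_add' X Y := by
    ext v
    rw [LinearMap.add_apply, Submodule.coe_add, cut_apply, cut_apply, cut_apply, LinearMap.add_apply, map_add]
  map_smul' c X := by
    ext v
    rw [RingHom.id_apply, LinearMap.smul_apply, Submodule.coe_smul, cut_apply, cut_apply, LinearMap.smul_apply, map_smul]

private theorem Y3_C_apply (q X : End ℂ H) (v : LinearMap.range q) : ((Y3_C q X v : LinearMap.range q) : H) = q (X v) := rfl

private theorem Y3_fix {q : End ℂ H} (hq : q * q = q) (v : LinearMap.range q) : q (v : H) = v := by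
  obtain ⟨_, w, rfl⟩ := v
  exact LinearMap.congr_fun hq w

private theorem Y3_C_mul {q X Y : End ℂ H} (hq : q * q = q) (hY : Y * q = q * Y) :
    Y3_C q X * Y3_C q Y = Y3_C q (X * Y) := by
  ext v
  rw [Module.End.mul_apply, Y3_C_apply, Y3_C_apply, Y3_C_apply, Module.End.mul_apply]
  have h1 := LinearMap.congr_fun hY (v : H)
  rw [Module.End.mul_apply, Module.End.mul_apply, Y3_fix hq v] at h1
  rw [← h1]

private theorem Y3_trace [FiniteDimensional ℂ H] {q : End ℂ H} (hq : q * q = q) (M : End ℂ H) :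
    LinearMap.trace ℂ H (M * q) = LinearMap.trace ℂ (LinearMap.range q) (Y3_C q M) := by
  have h1 : LinearMap.trace ℂ H (M * q) = LinearMap.trace ℂ H (q * M * q) := by
    rw [LinearMap.trace_mul_comm ℂ (q * M) q, ← mul_assoc, hq, LinearMap.trace_mul_comm ℂ q M]
  have h2 : q * M * q = (LinearMap.range q).subtype ∘ₗ (Y3_C q M ∘ₗ q.rangeRestrict) := by
    refine LinearMap.ext fun x => ?_
    rw [LinearMap.comp_apply, LinearMap.comp_apply, Submodule.subtype_apply, Y3_C_apply, Module.End.mul_apply,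
      Module.End.mul_apply]
    rfl
  have h3 : (Y3_C q M ∘ₗ q.rangeRestrict) ∘ₗ (LinearMap.range q).subtype = Y3_C q M := by
    refine LinearMap.ext fun x => ?_
    rw [LinearMap.comp_apply, LinearMap.comp_apply]
    congr 1
    exact Subtype.ext (Y3_fix hq x)
  rw [h1, h2, LinearMap.trace_comp_comm', h3]

end Y3b

theorem exists_Q_gal {H : Type} [AddCommGroup H] [Module ℂ H] [FiniteDimensional ℂ H] {G : Type} [Group G] {J : Type} [Fintype J]
    {e : H →ₗ[ℂ] H →ₗ[ℂ] ℂ} {bar : J → J} {p : J → Module.End ℂ H} {ρ : Representation ℂ G H} {μ : G →* ℂˣ}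
    (hB : Big e bar p ρ μ) {N : J → ℕ} {ε : J → Module.End ℂ H} {u v : ∀ f, Fin (N f) → Module.End ℂ H}
    (hS : MSys e bar p ρ N ε u v) (f : J) (L : Submodule ℂ (Module.End ℂ H)) (hlie : ∀ X ∈ L, ∀ Y ∈ L, X * Y - Y * X ∈ L)
    (hnorm : ∀ g, ∀ X ∈ L, ρ g * X * ρ g⁻¹ ∈ L) (hcomm : ∀ X ∈ L, X * ε f = ε f * X) :
    ∃ Q : Module.End ℂ H →ₗ[ℂ] Module.End ℂ H, (∀ Z, ∃ X ∈ L, Q Z = X * ε f) ∧ (∀ X ∈ L, Q (X * ε f) = X * ε f) ∧
      ∀ g Z, Q (ρ g * Z * ρ g⁻¹) = ρ g * Q Z * ρ g⁻¹ := by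
  have hq : ε f * ε f = ε f := (hS.unit f).idem
  have hc : ε f ∈ comm ρ := (hS.unit f).mem
  have hinv : ∀ g : G, ρ g * ρ g⁻¹ = 1 := fun g => by rw [← map_mul, mul_inv_cancel, map_one]
  have hinv' : ∀ g : G, ρ g⁻¹ * ρ g = 1 := fun g => by rw [← map_mul, inv_mul_cancel, map_one]
  have hnt : Nontrivial (LinearMap.range (ε f)) := by
    rw [Submodule.nontrivial_iff_ne_bot]
    intro h
    exact (hS.unit f).ne (LinearMap.range_eq_bot.mp h)
  -- the Lie algebra on the part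
  have hnd : ∀ X ∈ L, (∀ Y ∈ L, LinearMap.trace ℂ H (X * ε f * (Y * ε f)) = 0) → X * ε f = 0 := by
    intro X hX h
    have hR : Y3_C (ε f) X = 0 := by
      refine trace_nondeg_grp (cutRep ρ (ε f) hq hc) ?_ (L.map (Y3_C (ε f))) ?_ ?_ (Submodule.mem_map_of_mem hX) ?_
      · intro G' hG' A
        set X' : Module.End ℂ H := (LinearMap.range (ε f)).subtype ∘ₗ (A ∘ₗ (ε f).rangeRestrict) with hX'
        have h1 : ε f * X' * ε f = X' := by
          refine LinearMap.ext fun x => ?_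
          rw [Module.End.mul_apply, Module.End.mul_apply, hX', LinearMap.comp_apply, LinearMap.comp_apply,
            LinearMap.comp_apply, LinearMap.comp_apply, Submodule.subtype_apply, Submodule.subtype_apply, Y3_fix hq]
          congr 2
          exact Subtype.ext (LinearMap.congr_fun hq x)
        obtain ⟨Z, hZ, hZ1, -, -⟩ := Y3_dens hS hB f X' h1 G' hG'
        have h2 : A = Y3_C (ε f) Z := by
          ext y
          rw [Y3_C_apply]
          have h3 := LinearMap.congr_fun hZ1 (y : H)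
          rw [Module.End.mul_apply, Y3_fix hq, hX', LinearMap.comp_apply, LinearMap.comp_apply,
            Submodule.subtype_apply] at h3
          rw [h3, Y3_fix hq]
          congr 2
          exact Subtype.ext (Y3_fix hq y).symm
        rw [h2]
        have h4 := Submodule.mem_map_of_mem (f := Y3_C (ε f)) hZ
        rw [Submodule.map_span] at h4
        refine Submodule.span_mono ?_ h4
        rintro _ ⟨_, ⟨g, hg, rfl⟩, rfl⟩
        exact ⟨g, hg, rfl⟩
      · rintro _ ⟨A, hA, rfl⟩ _ ⟨B, hB', rfl⟩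
        rw [Y3_C_mul hq (hcomm B hB'), Y3_C_mul hq (hcomm A hA), ← map_sub]
        exact Submodule.mem_map_of_mem (hlie A hA B hB')
      · rintro g _ ⟨A, hA, rfl⟩
        have h1 : cutRep ρ (ε f) hq hc g = Y3_C (ε f) (ρ g) := rfl
        have h2 : cutRep ρ (ε f) hq hc g⁻¹ = Y3_C (ε f) (ρ g⁻¹) := rfl
        rw [h1, h2, Y3_C_mul hq (hcomm A hA), Y3_C_mul hq (hc g⁻¹)]
        exact Submodule.mem_map_of_mem (hnorm g A hA)
      · rintro _ ⟨Y, hY, rfl⟩
        rw [Y3_C_mul hq (hcomm Y hY), ← Y3_trace hq, ← h Y hY]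
        congr 1
        rw [mul_assoc X (ε f), ← mul_assoc (ε f) Y, ← hcomm Y hY, mul_assoc Y, hq, mul_assoc]
    refine LinearMap.ext fun x => ?_
    have h1 := congrArg Subtype.val (LinearMap.congr_fun hR ⟨ε f x, x, rfl⟩)
    rw [Y3_C_apply] at h1
    have h2 := LinearMap.congr_fun (hcomm X hX) (ε f x)
    rw [Module.End.mul_apply, Module.End.mul_apply] at h2
    have h3 : ε f (ε f x) = ε f x := LinearMap.congr_fun hq x
    rw [h3] at h2
    rw [Module.End.mul_apply, h2]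
    exact h1
  -- the projector
  set W : Submodule ℂ (Module.End ℂ H) := L.map (LinearMap.mulRight ℂ (ε f)) with hW
  have hWmem : ∀ A, A ∈ W ↔ ∃ X ∈ L, X * ε f = A := fun A => Iff.rfl
  set tf : Module.End ℂ H →ₗ[ℂ] Module.Dual ℂ W :=
    ((LinearMap.mul ℂ (Module.End ℂ H)).compr₂ (LinearMap.trace ℂ H)).compl₂ W.subtype with htf
  have htf' : ∀ Z (B : W), tf Z B = LinearMap.trace ℂ H (Z * (B : Module.End ℂ H)) := fun Z B => rfl
  have hinj : Function.Injective (tf ∘ₗ W.subtype) := by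
    rw [injective_iff_map_eq_zero]
    rintro ⟨A, hA⟩ hA0
    obtain ⟨X, hX, rfl⟩ := (hWmem A).mp hA
    refine Subtype.ext (hnd X hX fun Y hY => ?_)
    have h1 := LinearMap.congr_fun hA0 ⟨Y * ε f, (hWmem _).mpr ⟨Y, hY, rfl⟩⟩
    rw [LinearMap.comp_apply, htf'] at h1
    exact h1
  have hbij : Function.Bijective (tf ∘ₗ W.subtype) :=
    ⟨hinj, (LinearMap.injective_iff_surjective_of_finrank_eq_finrank
      (Subspace.dual_finrank_eq (K := ℂ) (V := W)).symm).mp hinj⟩
  set E : W ≃ₗ[ℂ] Module.Dual ℂ W := LinearEquiv.ofBijective (tf ∘ₗ W.subtype) hbij with hE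
  have hE' : ∀ φ : Module.Dual ℂ W, ∀ B : W, LinearMap.trace ℂ H (((E.symm φ : W) : Module.End ℂ H) * (B : Module.End ℂ H)) = φ B := by
    intro φ B
    have h1 : E (E.symm φ) = φ := E.apply_symm_apply φ
    exact LinearMap.congr_fun h1 B
  have huniq : ∀ A ∈ W, ∀ Z : Module.End ℂ H, (∀ B ∈ W, LinearMap.trace ℂ H (A * B) = LinearMap.trace ℂ H (Z * B)) →
      ((E.symm (tf Z) : W) : Module.End ℂ H) = A := by
    intro A hA Z h
    have h1 : E ⟨A, hA⟩ = tf Z := LinearMap.ext fun B => h B B.2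
    rw [← h1, LinearEquiv.symm_apply_apply]
  refine ⟨W.subtype ∘ₗ E.symm.toLinearMap ∘ₗ tf, fun Z => ?_, fun X hX => ?_, fun g Z => ?_⟩
  · obtain ⟨X, hX, h⟩ := (hWmem _).mp (E.symm (tf Z)).2
    exact ⟨X, hX, h.symm⟩
  · exact huniq (X * ε f) ((hWmem _).mpr ⟨X, hX, rfl⟩) _ fun B _ => rfl
  · have hconj : ∀ g, ∀ A ∈ W, ρ g * A * ρ g⁻¹ ∈ W := by
      intro g A hA
      obtain ⟨X, hX, rfl⟩ := (hWmem A).mp hA
      refine (hWmem _).mpr ⟨ρ g * X * ρ g⁻¹, hnorm g X hX, ?_⟩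
      rw [mul_assoc (ρ g * X), hc g⁻¹, ← mul_assoc (ρ g), ← mul_assoc]
    refine huniq (ρ g * ((E.symm (tf Z) : W) : Module.End ℂ H) * ρ g⁻¹) (hconj g _ (E.symm (tf Z)).2) _ fun B hB' => ?_
    have h1 : ρ g⁻¹ * B * ρ g ∈ W := by
      have h2 := hconj g⁻¹ B hB'
      rwa [inv_inv] at h2
    have h2 := hE' (tf Z) ⟨ρ g⁻¹ * B * ρ g, h1⟩
    rw [htf'] at h2
    have h3 : ∀ M : Module.End ℂ H, LinearMap.trace ℂ H (ρ g * M * ρ g⁻¹ * B) =
        LinearMap.trace ℂ H (M * (ρ g⁻¹ * B * ρ g)) := by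
      intro M
      rw [mul_assoc, mul_assoc, LinearMap.trace_mul_comm]
      simp only [mul_assoc]
    rw [h3, h3]
    exact h2

end TUT
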