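import Pool.Agent.Lib.MP_021685_agUX.C1
import Pool.Agent.Lib.MP_021685_agUT.P6

/-! The nilpotent endomorphisms from the forms with four arguments. -/

set_option autoImplicit false

noncomputable section

namespace TUT

open Module

section

variable {H : Type} [AddCommGroup H] [Module ℂ H]

private theorem W2_four (B : H →ₗ[ℂ] H →ₗ[ℂ] H →ₗ[ℂ] H →ₗ[ℂ] ℂ) : ∃ T : MultilinearMap ℂ (fun _ : Fin 4 => H) ℂ,
    (∀ w, T w = B (w 0) (w 1) (w 2) (w 3)) ∧ ∀ (X : Module.End ℂ H) (w : Fin 4 → H),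
      ∑ j, T (Function.update w j (X (w j))) =
        B (X (w 0)) (w 1) (w 2) (w 3) + B (w 0) (X (w 1)) (w 2) (w 3) + B (w 0) (w 1) (X (w 2)) (w 3) +
          B (w 0) (w 1) (w 2) (X (w 3)) := by
  classical
  have n01 : (0 : Fin 4) ≠ 1 := Fin.ne_of_val_ne (Nat.zero_ne_one)
  have n02 : (0 : Fin 4) ≠ 2 := Fin.ne_of_val_ne (fun h => by omega)
  have n03 : (0 : Fin 4) ≠ 3 := Fin.ne_of_val_ne (fun h => by omega)
  have n12 : (1 : Fin 4) ≠ 2 := Fin.ne_of_val_ne (fun h => by omega)
  have n13 : (1 : Fin 4) ≠ 3 := Fin.ne_of_val_ne (fun h => by omega)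
  have n23 : (2 : Fin 4) ≠ 3 := Fin.ne_of_val_ne (fun h => by omega)
  have a0 : ∀ (w : Fin 4 → H) (x : H), B (Function.update w 0 x 0) (Function.update w 0 x 1) (Function.update w 0 x 2)
      (Function.update w 0 x 3) = B x (w 1) (w 2) (w 3) := fun w x => by
    rw [Function.update_self, Function.update_of_ne n01.symm, Function.update_of_ne n02.symm, Function.update_of_ne n03.symm]
  have a1 : ∀ (w : Fin 4 → H) (x : H), B (Function.update w 1 x 0) (Function.update w 1 x 1) (Function.update w 1 x 2)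
      (Function.update w 1 x 3) = B (w 0) x (w 2) (w 3) := fun w x => by
    rw [Function.update_self, Function.update_of_ne n01, Function.update_of_ne n12.symm, Function.update_of_ne n13.symm]
  have a2 : ∀ (w : Fin 4 → H) (x : H), B (Function.update w 2 x 0) (Function.update w 2 x 1) (Function.update w 2 x 2)
      (Function.update w 2 x 3) = B (w 0) (w 1) x (w 3) := fun w x => by
    rw [Function.update_self, Function.update_of_ne n02, Function.update_of_ne n12, Function.update_of_ne n23.symm]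
  have a3 : ∀ (w : Fin 4 → H) (x : H), B (Function.update w 3 x 0) (Function.update w 3 x 1) (Function.update w 3 x 2)
      (Function.update w 3 x 3) = B (w 0) (w 1) (w 2) x := fun w x => by
    rw [Function.update_self, Function.update_of_ne n03, Function.update_of_ne n13, Function.update_of_ne n23]
  refine ⟨⟨fun w => B (w 0) (w 1) (w 2) (w 3), ?_, ?_⟩, fun w => rfl, fun X w => ?_⟩
  · intro inst w j x y
    rw [Subsingleton.elim inst (instDecidableEqFin 4)]
    have hj : j = 0 ∨ j = 1 ∨ j = 2 ∨ j = 3 := by omega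
    rcases hj with rfl | rfl | rfl | rfl
    · rw [a0, a0, a0, map_add, LinearMap.add_apply, LinearMap.add_apply, LinearMap.add_apply]
    · rw [a1, a1, a1, map_add, LinearMap.add_apply, LinearMap.add_apply]
    · rw [a2, a2, a2, map_add, LinearMap.add_apply]
    · rw [a3, a3, a3, map_add]
  · intro inst w j a x
    rw [Subsingleton.elim inst (instDecidableEqFin 4)]
    have hj : j = 0 ∨ j = 1 ∨ j = 2 ∨ j = 3 := by omega
    rcases hj with rfl | rfl | rfl | rfl
    · rw [a0, a0, map_smul, LinearMap.smul_apply, LinearMap.smul_apply, LinearMap.smul_apply]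
    · rw [a1, a1, map_smul, LinearMap.smul_apply, LinearMap.smul_apply]
    · rw [a2, a2, map_smul, LinearMap.smul_apply]
    · rw [a3, a3, map_smul]
  · rw [Fin.sum_univ_four]
    exact congrArg₂ (· + ·) (congrArg₂ (· + ·) (congrArg₂ (· + ·) (a0 w _) (a1 w _)) (a2 w _)) (a3 w _)

/-- Every endomorphism of the image of `ε` is a combination of endomorphisms of rank one. -/
private theorem W2_span [FiniteDimensional ℂ H] (e : H →ₗ[ℂ] H →ₗ[ℂ] ℂ) (hnd : ∀ v, (∀ w, e v w = 0) → v = 0)
    (ε ε' : Module.End ℂ H) (hε' : ε' * ε' = ε') (hadj : ∀ x y, e (ε' x) y = e x (ε y))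
    (Z : Module.End ℂ H) (h1 : ε * Z = Z) (h2 : Z * ε = Z) :
    Z ∈ Submodule.span ℂ {Y | ∃ a b, ε a = a ∧ ε' b = b ∧ Y = (e b).smulRight a} := by
  have hinj : Function.Injective e := by
    rw [injective_iff_map_eq_zero]
    intro v hv
    exact hnd v fun w => by rw [hv, LinearMap.zero_apply]
  have hdim : finrank ℂ H = finrank ℂ (H →ₗ[ℂ] ℂ) := (Subspace.dual_finrank_eq (K := ℂ) (V := H)).symm
  have hsurj : ∀ l : H →ₗ[ℂ] ℂ, ∃ y, e y = l := fun l =>
    ⟨(LinearMap.linearEquivOfInjective e hinj hdim).symm l, (LinearMap.linearEquivOfInjective e hinj hdim).apply_symm_apply l⟩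
  let h := Module.finBasis ℂ H
  choose b hb using fun i => hsurj (h.coord i)
  have h3 : Z = ∑ i, (e (ε' (b i))).smulRight (Z (h i)) := by
    refine LinearMap.ext fun x => ?_
    have h4 : Z x = Z (ε x) := (LinearMap.congr_fun h2 x).symm
    rw [h4, LinearMap.sum_apply]
    have h5 : ε x = ∑ i, h.coord i (ε x) • h i := (h.sum_repr (ε x)).symm
    conv_lhs => rw [h5, map_sum]
    refine Finset.sum_congr rfl fun i _ => ?_
    rw [map_smul, LinearMap.smulRight_apply, hadj, hb]
  rw [h3]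
  refine Submodule.sum_mem _ fun i _ => Submodule.subset_span ⟨_, _, ?_, ?_, rfl⟩
  · exact LinearMap.congr_fun h1 (h i)
  · exact LinearMap.congr_fun hε' (b i)

end

private theorem W4_rank {H : Type} [AddCommGroup H] [Module ℂ H] [FiniteDimensional ℂ H] {G : Type} [Group G] {J : Type} [Fintype J]
    {e : H →ₗ[ℂ] H →ₗ[ℂ] ℂ} {bar : J → J} {p : J → Module.End ℂ H} {ρ : Representation ℂ G H} {μ : G →* ℂˣ}
    {N : J → ℕ} {ε : J → Module.End ℂ H} {u v : ∀ f, Fin (N f) → Module.End ℂ H} (hS : MSys e bar p ρ N ε u v)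
    (hB : Big e bar p ρ μ) (h : Module.End ℂ H) (hh : ∀ Y ∈ comm ρ, h * Y = Y * h) (f : J) :
    finrank ℂ (LinearMap.range (h * p f)) = N f * finrank ℂ (LinearMap.range (h * ε f)) := by
  classical
  rw [hS.rank hB h hh f]
  congr 1
  have hεc : ∀ g, h * ε g = ε g * h := fun g => hh _ (hS.unit g).mem
  have hpε : ∀ g, ε g * p g = ε g := fun g => by
    rw [← hB.central g _ (hS.unit g).mem, (hS.unit g).pf]
  have hoε : ∀ g g', g ≠ g' → ε g * ε g' = 0 := by
    intro g g' hgg
    have h1 : ε g * ε g' = ε g * (p g * p g') * ε g' := by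
      rw [← mul_assoc, hpε g, mul_assoc, (hS.unit g').pf]
    rw [h1, hB.blk.orth g g' hgg, mul_zero, zero_mul]
  have hqε : (∑ g, ε g) * ε f = ε f := by
    rw [Finset.sum_mul, Finset.sum_eq_single f]
    · exact (hS.unit f).idem
    · intro g _ hg
      exact hoε g f hg
    · intro hf
      exact absurd (Finset.mem_univ f) hf
  have hεq : ε f * (∑ g, ε g) = ε f := by
    rw [Finset.mul_sum, Finset.sum_eq_single f]
    · exact (hS.unit f).idem
    · intro g _ hg
      exact hoε f g (Ne.symm hg)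
    · intro hf
      exact absurd (Finset.mem_univ f) hf
  have hqh : (∑ g, ε g) * h = h * ∑ g, ε g := by
    rw [Finset.sum_mul, Finset.mul_sum]
    exact Finset.sum_congr rfl fun g _ => (hεc g).symm
  have hkey : ∀ w : LinearMap.range (∑ g, ε g), ((cut (∑ f, ε f) h (cut (∑ f, ε f) (ε f) w) : LinearMap.range (∑ f, ε f)) : H) =
      h (ε f (w : H)) := by
    intro w
    rw [cut_apply, cut_apply]
    have e1 : (∑ g, ε g) (ε f (w : H)) = ε f w := LinearMap.congr_fun hqε w
    rw [e1]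
    have e2 : (∑ g, ε g) (h (ε f (w : H))) = h ((∑ g, ε g) (ε f (w : H))) := LinearMap.congr_fun hqh _
    rw [e2, e1]
  have h3 : Submodule.map (LinearMap.range (∑ f, ε f)).subtype
      (LinearMap.range (cut (∑ f, ε f) h * cut (∑ f, ε f) (ε f))) = LinearMap.range (h * ε f) := by
    ext x
    constructor
    · rintro ⟨_, ⟨w, rfl⟩, rfl⟩
      exact ⟨(w : H), (hkey w).symm⟩
    · rintro ⟨w, rfl⟩
      refine ⟨_, ⟨⟨(∑ g, ε g) w, ⟨w, rfl⟩⟩, rfl⟩, ?_⟩
      refine (hkey _).trans ?_
      show h (ε f ((∑ g, ε g) w)) = h (ε f w)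
      have e1 : ε f ((∑ g, ε g) w) = ε f w := LinearMap.congr_fun hεq w
      rw [e1]
  rw [← h3]
  exact (Submodule.finrank_map_subtype_eq _ _).symm

theorem one_dim {H : Type} [AddCommGroup H] [Module ℂ H] [FiniteDimensional ℂ H] {G : Type} [Group G] {J : Type} [Fintype J]
    {e : H →ₗ[ℂ] H →ₗ[ℂ] ℂ} {bar : J → J} {p : J → Module.End ℂ H} {ρ : Representation ℂ G H} {μ : G →* ℂˣ}
    (hB : Big e bar p ρ μ) {N : J → ℕ} {ε : J → Module.End ℂ H} {u v : ∀ f, Fin (N f) → Module.End ℂ H}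
    (hS : MSys e bar p ρ N ε u v) (f : J) (h1 : finrank ℂ (LinearMap.range (p f)) = N f) (a b : H) (ha : ε f a = a)
    (hb : ε (bar f) b = b) (h0 : e b a = 0) : a = 0 ∨ b = 0 := by
  classical
  by_cases ha0 : a = 0
  · exact Or.inl ha0
  right
  have hN : N f ≠ 0 := by
    intro h2
    rw [h2, Submodule.finrank_eq_zero, LinearMap.range_eq_bot] at h1
    exact hB.ne f h1
  have h2 : finrank ℂ (LinearMap.range (ε f)) = 1 := by
    have h3 := W4_rank hS hB 1 (fun Y _ => by rw [one_mul, mul_one]) f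
    rw [one_mul, one_mul, h1] at h3
    have h4 : N f * finrank ℂ (LinearMap.range (ε f)) = N f * 1 := by rw [← h3, mul_one]
    exact Nat.eq_of_mul_eq_mul_left (Nat.pos_of_ne_zero hN) h4
  have ha' : (⟨a, ⟨a, ha⟩⟩ : LinearMap.range (ε f)) ≠ 0 := fun h3 => ha0 (congrArg Subtype.val h3)
  refine hB.blk.nd b fun x => ?_
  have h3 : e b x = e b (ε f x) := by
    have h4 := hS.adj (bar f) b x
    rw [hb, hB.blk.bb] at h4
    exact h4
  obtain ⟨c, hc⟩ := (finrank_eq_one_iff_of_nonzero' _ ha').1 h2 ⟨ε f x, ⟨x, rfl⟩⟩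
  have hc' : c • a = ε f x := congrArg Subtype.val hc
  rw [h3, ← hc', map_smul, h0, smul_zero]

theorem nil_of_four_gal {H : Type} [AddCommGroup H] [Module ℂ H] [FiniteDimensional ℂ H] {G : Type} [Group G] {J : Type}
    [Fintype J] {e : H →ₗ[ℂ] H →ₗ[ℂ] ℂ} {bar : J → J} {p : J → Module.End ℂ H} {ρ : Representation ℂ G H} {μ : G →* ℂˣ}
    (hB : Big e bar p ρ μ) {N : J → ℕ} {ε : J → Module.End ℂ H} {u v : ∀ f, Fin (N f) → Module.End ℂ H}
    (hS : MSys e bar p ρ N ε u v) (f : J) {P : Module.End ℂ H} (hP1 : ε f * P = ε f) (hP2 : ε (bar f) * P = ε (bar f))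
    (h4 : ∀ T : MultilinearMap ℂ (fun _ : Fin 4 => H) ℂ, IsTt ρ μ ⊤ 2 T → (∀ w, T (fun j => P (w j)) = T w) →
      T ∈ Submodule.span ℂ {T' : MultilinearMap ℂ (fun _ : Fin 4 => H) ℂ | IsPg ρ μ T'})
    (L : Submodule ℂ (Module.End ℂ H)) (Q : Module.End ℂ H →ₗ[ℂ] Module.End ℂ H)
    (hcomm : ∀ X ∈ L, X * ε f = ε f * X) (himg : ∀ Z, ∃ X ∈ L, Q Z = X * ε f) (hproj : ∀ X ∈ L, Q (X * ε f) = X * ε f)
    (had : ∀ g Z, Q (ρ g * Z * ρ g⁻¹) = ρ g * Q Z * ρ g⁻¹)
    (hns : ∃ X ∈ L, ∀ t : ℂ, X * ε f ≠ t • ε f) (a b : H) (ha : ε f a = a) (hb : ε (bar f) b = b) (h0 : e b a = 0) :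
    ∃ X ∈ L, ∀ x, ε f x = x → X x = e b x • a := by
  classical
  have hε : ε f * ε f = ε f := (hS.unit f).idem
  have hε' : ε (bar f) * ε (bar f) = ε (bar f) := (hS.unit (bar f)).idem
  have hadj : ∀ x y, e (ε f x) y = e x (ε (bar f) y) := fun x y => hS.adj f x y
  have hadj' : ∀ x y, e (ε (bar f) x) y = e x (ε f y) := fun x y => by
    have h1 := hS.adj (bar f) x y
    rwa [hB.blk.bb] at h1
  have hskew : ∀ x y, e x y = - e y x := by
    intro x y
    have h1 := hB.blk.alt (x + y)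
    rw [map_add, map_add, LinearMap.add_apply, LinearMap.add_apply, hB.blk.alt, hB.blk.alt, zero_add, add_zero] at h1
    exact eq_neg_of_add_eq_zero_right h1
  have hQ1 : ∀ Z, Q Z * ε f = Q Z := fun Z => by
    obtain ⟨X, hX, h1⟩ := himg Z
    rw [h1, mul_assoc, hε]
  have hQ2 : ∀ Z, ε f * Q Z = Q Z := fun Z => by
    obtain ⟨X, hX, h1⟩ := himg Z
    rw [h1, ← mul_assoc, ← hcomm X hX, mul_assoc, hε]
  -- the endomorphisms of rank one
  let R : H →ₗ[ℂ] H →ₗ[ℂ] Module.End ℂ (H) := LinearMap.mk₂ ℂ (fun x y => (e (ε (bar f) y)).smulRight (ε f x))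
    (fun x x' y => by
      refine LinearMap.ext fun z => ?_
      rw [LinearMap.add_apply, LinearMap.smulRight_apply, LinearMap.smulRight_apply, LinearMap.smulRight_apply, map_add, smul_add])
    (fun c x y => by
      refine LinearMap.ext fun z => ?_
      rw [LinearMap.smul_apply, LinearMap.smulRight_apply, LinearMap.smulRight_apply, map_smul, smul_comm])
    (fun x y y' => by
      refine LinearMap.ext fun z => ?_
      rw [LinearMap.add_apply, LinearMap.smulRight_apply, LinearMap.smulRight_apply, LinearMap.smulRight_apply, map_add, map_add,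
        LinearMap.add_apply, add_smul])
    (fun c x y => by
      refine LinearMap.ext fun z => ?_
      rw [LinearMap.smul_apply, LinearMap.smulRight_apply, LinearMap.smulRight_apply, map_smul, map_smul, LinearMap.smul_apply,
        smul_eq_mul, mul_smul])
  have hR : ∀ x y z, R x y z = e (ε (bar f) y) z • ε f x := fun x y z => rfl
  let B : H →ₗ[ℂ] H →ₗ[ℂ] H →ₗ[ℂ] H →ₗ[ℂ] ℂ := LinearMap.mk₂ ℂ (fun x y => e ∘ₗ (Q (R x y)) ∘ₗ ε f)
    (fun x x' y => by
      refine LinearMap.ext fun z => LinearMap.ext fun w => ?_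
      rw [map_add, LinearMap.add_apply, map_add, LinearMap.add_apply, LinearMap.add_apply]
      show e ((Q (R x y) + Q (R x' y)) (ε f z)) w = e (Q (R x y) (ε f z)) w + e (Q (R x' y) (ε f z)) w
      rw [LinearMap.add_apply, map_add, LinearMap.add_apply])
    (fun c x y => by
      refine LinearMap.ext fun z => LinearMap.ext fun w => ?_
      rw [map_smul, LinearMap.smul_apply, map_smul, LinearMap.smul_apply, LinearMap.smul_apply]
      show e ((c • Q (R x y)) (ε f z)) w = c • e (Q (R x y) (ε f z)) w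
      rw [LinearMap.smul_apply, map_smul, LinearMap.smul_apply])
    (fun x y y' => by
      refine LinearMap.ext fun z => LinearMap.ext fun w => ?_
      rw [map_add, map_add, LinearMap.add_apply, LinearMap.add_apply]
      show e ((Q (R x y) + Q (R x y')) (ε f z)) w = e (Q (R x y) (ε f z)) w + e (Q (R x y') (ε f z)) w
      rw [LinearMap.add_apply, map_add, LinearMap.add_apply])
    (fun c x y => by
      refine LinearMap.ext fun z => LinearMap.ext fun w => ?_
      rw [map_smul, map_smul, LinearMap.smul_apply, LinearMap.smul_apply]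
      show e ((c • Q (R x y)) (ε f z)) w = c • e (Q (R x y) (ε f z)) w
      rw [LinearMap.smul_apply, map_smul, LinearMap.smul_apply])
  have hBa : ∀ x y z w, B x y z w = e (Q (R x y) (ε f z)) w := fun x y z w => rfl
  obtain ⟨T, hT1, hT2⟩ := W2_four B
  have hT : IsTt ρ μ ⊤ 2 T := by
    intro s _ w
    have hc : ∀ g, ∀ Y ∈ comm ρ, ∀ x, ρ g (Y x) = Y (ρ g x) := fun g Y hY x => LinearMap.congr_fun (hY g) x
    have hi : ∀ z, ρ s (ρ s⁻¹ z) = z := fun z => by
      rw [← Module.End.mul_apply, ← map_mul, mul_inv_cancel, map_one, Module.End.one_apply]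
    have hi' : ∀ z, ρ s⁻¹ (ρ s z) = z := fun z => by
      rw [← Module.End.mul_apply, ← map_mul, inv_mul_cancel, map_one, Module.End.one_apply]
    have h1 : R (ρ s (w 0)) (ρ s (w 1)) = (μ s : ℂ) • (ρ s * R (w 0) (w 1) * ρ s⁻¹) := by
      refine LinearMap.ext fun z => ?_
      rw [LinearMap.smul_apply, Module.End.mul_apply, Module.End.mul_apply, hR, hR, map_smul, smul_smul,
        ← hc s _ (hS.unit (bar f)).mem, ← hc s _ (hS.unit f).mem, ← hB.he s, hi]
    have h2 : Q (R (ρ s (w 0)) (ρ s (w 1))) = (μ s : ℂ) • (ρ s * Q (R (w 0) (w 1)) * ρ s⁻¹) := by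
      rw [h1, map_smul, had]
    rw [hT1, hT1, hBa, hBa, h2, LinearMap.smul_apply, Module.End.mul_apply, Module.End.mul_apply,
      ← hc s _ (hS.unit f).mem, hi', map_smul, LinearMap.smul_apply, hB.he, smul_eq_mul, zpow_ofNat, Units.val_pow_eq_pow_val]
    ring
  have hTP : ∀ w, T (fun j => P (w j)) = T w := by
    intro w
    have h1 : ∀ x, ε f (P x) = ε f x := LinearMap.congr_fun hP1
    have h2 : ∀ x, ε (bar f) (P x) = ε (bar f) x := LinearMap.congr_fun hP2
    have h3 : R (P (w 0)) (P (w 1)) = R (w 0) (w 1) := by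
      refine LinearMap.ext fun z => ?_
      rw [hR, hR, h1, h2]
    have h4 : ∀ Z x y, e (Q Z x) y = e (Q Z x) (ε (bar f) y) := by
      intro Z x y
      rw [← hadj]
      exact congrArg (fun z => e z y) (LinearMap.congr_fun (hQ2 Z) x).symm
    rw [hT1, hT1, hBa, hBa, h3, h1, h4 _ _ (P (w 3)), h2, ← h4]
  obtain ⟨α, γ, hαγ⟩ := two_forms hB hS f (h4 T hT hTP)
  -- the value of the projector
  have hval : ∀ a b, ε f a = a → ε (bar f) b = b → Q ((e b).smulRight a) = (α * e a b) • ε f - γ • (e b).smulRight a := by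
    intro a b ha hb
    have hRab : R a b = (e b).smulRight a := by
      refine LinearMap.ext fun z => ?_
      rw [hR, ha, hb, LinearMap.smulRight_apply]
    refine LinearMap.ext fun x => ?_
    rw [← sub_eq_zero]
    refine hB.blk.nd _ fun y => ?_
    rw [map_sub, LinearMap.sub_apply, sub_eq_zero]
    have h1 := hαγ ![a, b, ε f x, ε (bar f) y] ha hb (LinearMap.congr_fun hε x) (LinearMap.congr_fun hε' y)
    rw [hT1] at h1
    have h2 : e (Q (R a b) (ε f (ε f x))) (ε (bar f) y) =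
        α * (e a b * e (ε f x) (ε (bar f) y)) + γ * (e a (ε (bar f) y) * e (ε f x) b) := h1
    have h3 : Q (R a b) (ε f (ε f x)) = Q (R a b) x := by
      have h4 := LinearMap.congr_fun (hQ1 (R a b))
      have h5 : ∀ x, Q (R a b) (ε f x) = Q (R a b) x := h4
      rw [h5, h5]
    have h4 : e (Q (R a b) x) (ε (bar f) y) = e (Q (R a b) x) y := by
      rw [← hadj]
      exact congrArg (fun z => e z y) (LinearMap.congr_fun (hQ2 (R a b)) x)
    rw [h3, h4, ← hadj (ε f x), ← hadj a, ha, hadj x b, hb] at h2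
    have h5 : ε f (ε f x) = ε f x := LinearMap.congr_fun hε x
    rw [h5] at h2
    rw [← hRab, h2, hRab, LinearMap.sub_apply, LinearMap.smul_apply, LinearMap.smul_apply, LinearMap.smulRight_apply, map_sub,
      map_smul, map_smul, map_smul, LinearMap.sub_apply, LinearMap.smul_apply, LinearMap.smul_apply, LinearMap.smul_apply,
      smul_eq_mul, smul_eq_mul, smul_eq_mul, hskew b x]
    ring
  have hQZ : ∀ Z ∈ Submodule.span ℂ {Y : Module.End ℂ (H) | ∃ a b, ε f a = a ∧ ε (bar f) b = b ∧ Y = (e b).smulRight a},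
      ∃ s : ℂ, Q Z = s • ε f - γ • Z := by
    intro Z hZ
    induction hZ using Submodule.span_induction with
    | mem Z hZ =>
      obtain ⟨a, b, ha, hb, rfl⟩ := hZ
      exact ⟨_, hval a b ha hb⟩
    | zero => exact ⟨0, by rw [map_zero, zero_smul, smul_zero, sub_zero]⟩
    | add x y _ _ hx hy =>
      obtain ⟨s, hs⟩ := hx
      obtain ⟨t, ht⟩ := hy
      exact ⟨s + t, by rw [map_add, hs, ht, add_smul, smul_add]; abel⟩
    | smul c x _ hx =>
      obtain ⟨s, hs⟩ := hx
      exact ⟨c * s, by rw [map_smul, hs, smul_sub, smul_smul, smul_comm c γ]⟩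
  have hγ : γ = -1 := by
    obtain ⟨X, hX, hXn⟩ := hns
    by_contra hcon
    obtain ⟨s, hs⟩ := hQZ (X * ε f) (W2_span e hB.blk.nd (ε f) (ε (bar f)) hε' hadj' (X * ε f)
      (by rw [← mul_assoc, ← hcomm X hX, mul_assoc, hε]) (by rw [mul_assoc, hε]))
    rw [hproj X hX] at hs
    have h1 : (1 + γ) • (X * ε f) = s • ε f := by
      rw [add_smul, one_smul]
      nth_rw 1 [hs]
      abel
    have h2 : 1 + γ ≠ 0 := fun h => hcon (by linear_combination h)
    refine hXn ((1 + γ)⁻¹ * s) ?_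
    rw [mul_smul, ← h1, smul_smul, inv_mul_cancel₀ h2, one_smul]
  obtain ⟨X, hX, h1⟩ := himg ((e b).smulRight a)
  refine ⟨X, hX, fun x hx => ?_⟩
  have h2 := hval a b ha hb
  rw [h1, hγ, hskew a b, h0, neg_zero, mul_zero, zero_smul] at h2
  have h3 : (X * ε f) x = (0 : Module.End ℂ (H)) x - (-1 : ℂ) • (e b).smulRight a x := LinearMap.congr_fun h2 x
  rw [Module.End.mul_apply, hx, LinearMap.smulRight_apply, LinearMap.zero_apply, zero_sub, neg_smul, one_smul, neg_neg] at h3
  exact h3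

end TUT
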