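import Pool.Agent.Lib.MP_021685_agUX.Y1
import Pool.Agent.Lib.MP_021685_agUX.Y3
import Pool.Agent.Lib.MP_021685_agUX.Y4
import Pool.Agent.Lib.MP_021685_agUX.C6
import Pool.Agent.Lib.MP_021685_agUT.Z3

/-! The criterion with conditions on the isotypic parts: sufficiency. -/

set_option autoImplicit false

noncomputable section

namespace TUT

open TensorProduct Module Pool.Agent.Lib.MP_17a322_nt.VA Pool.Agent.Lib.MP_021685_agTT

section

variable {K : Type} [Field K] {M : ℕ} {A : AV K M} {l : ℕ} [Fact l.Prime] [Algebra ℚ_[l] ℂ]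
    {V : Type} [AddCommGroup V] [Module ℚ_[l] V] [FiniteDimensional ℚ_[l] V] {ι : (ℕ → A.Pts (AlgebraicClosure K)) → V}
    {ρ : Representation ℚ_[l] (GalK K) V} {e : V →ₗ[ℚ_[l]] V →ₗ[ℚ_[l]] ℚ_[l]}
    {D : Type} [Ring D] [Algebra ℚ D] {b : D →+* Module.End ℚ_[l] V}
    {r : ℕ} {E : Fin r → Type} [∀ i, Field (E i)] [∀ i, NumberField (E i)] {c : (∀ i, E i) →+* D}
    {t : (∀ i, E i) → K} {n : (K →+* ℂ) → (Σ i, E i →+* ℂ) → ℕ} {N : Fin r → ℕ}
    {a : (∀ i, E i) →+* Module.End ℚ_[l] V} {p : (Σ i, E i →+* ℂ) → Module.End ℂ (ℂ ⊗[ℚ_[l]] V)}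
    {h : (K →+* ℂ) → Module.End ℂ (ℂ ⊗[ℚ_[l]] V)}

theorem Frame.nonscalar (hf : Frame ρ e a n N p h) {N' : (Σ i, E i →+* ℂ) → ℕ}
    {ε : (Σ i, E i →+* ℂ) → Module.End ℂ (ℂ ⊗[ℚ_[l]] V)} {u v : ∀ f, Fin (N' f) → Module.End ℂ (ℂ ⊗[ℚ_[l]] V)}
    (hS : MSys (bilC e) cj p (repC ρ) N' ε u v) (σ : K →+* ℂ) (f : Σ i, E i →+* ℂ) (h1 : n σ f ≠ 0) (h2 : n σ (cj f) ≠ 0)
    (x : ℂ) : h σ * ε f ≠ x • ε f := by
  intro hx
  have hc : ∀ Y ∈ comm (repC ρ), h σ * Y = Y * h σ := fun Y hY =>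
    Kills.comm hf.big.blk.nd hf.big.he isFix_bot (hf.kills σ) Y hY
  have hp : h σ * p f = x • p f := by
    rw [← (hS.unit f).sum, Finset.mul_sum, Finset.smul_sum]
    refine Finset.sum_congr rfl fun j _ => ?_
    have e1 : h σ * u f j = x • u f j := by
      calc h σ * u f j = h σ * (u f j * ε f) := by rw [(hS.unit f).ue]
        _ = u f j * (h σ * ε f) := by rw [← mul_assoc, hc _ ((hS.unit f).umem j), mul_assoc]
        _ = x • u f j := by rw [hx, mul_smul_comm, (hS.unit f).ue]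
    rw [← mul_assoc, e1, smul_mul_assoc]
  have hxx : x * x = x := by
    obtain ⟨w, hw⟩ : ∃ w, p f w ≠ 0 := by
      by_contra hcon
      push Not at hcon
      exact hf.big.ne f (LinearMap.ext hcon)
    have e2 : h σ (p f w) = x • p f w := LinearMap.congr_fun hp w
    have e3 : h σ (h σ (p f w)) = h σ (p f w) := LinearMap.congr_fun (hf.idem σ) (p f w)
    rw [e2, map_smul, e2, smul_smul] at e3
    exact smul_left_injective ℂ hw e3
  have hx01 : x = 0 ∨ x = 1 := by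
    rcases mul_eq_zero.1 (show x * (x - 1) = 0 by linear_combination hxx) with e4 | e4
    · exact Or.inl e4
    · exact Or.inr (by linear_combination e4)
  rcases hx01 with rfl | rfl
  · rw [zero_smul] at hp
    apply h1
    rw [← hf.rank, hp, LinearMap.range_zero, finrank_bot]
  · rw [one_smul] at hp
    apply h2
    have e5 := hf.sum σ f
    have e6 := hf.rank σ f
    rw [hp] at e6
    omega

/-- The nilpotent endomorphisms of the irreducible parts. -/
theorem Frame.nil (hf : Frame ρ e a n N p h) (f : Σ i, E i →+* ℂ) {P : Module.End ℚ_[l] V} (h4 : FourTate ρ P)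
    (hP1 : p f * P.baseChange ℂ = p f) (hP2 : p (cj f) * P.baseChange ℂ = p (cj f))
    (hsh : finrank ℂ (LinearMap.range (p f)) ≠ N f.1 → ∃ σ, n σ f ≠ 0 ∧ n σ (cj f) ≠ 0)
    {N' : (Σ i, E i →+* ℂ) → ℕ} {ε : (Σ i, E i →+* ℂ) → Module.End ℂ (ℂ ⊗[ℚ_[l]] V)}
    {u v : ∀ f, Fin (N' f) → Module.End ℂ (ℂ ⊗[ℚ_[l]] V)}
    (hS : MSys (bilC e) cj p (repC ρ) N' ε u v) (hN : ∀ f, N' f = N f.1) (x y : ℂ ⊗[ℚ_[l]] V)
    (hx : ε f x = x) (hy : ε (cj f) y = y) (h0 : bilC e y x = 0) :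
    ∃ (X : Module.End ℂ (ℂ ⊗[ℚ_[l]] V)) (t : ℂ), Kills (repC ρ) (charC (cyc K l)) (IsFix K) X t ∧
      ∀ z, ε f z = z → X z = bilC e y z • x := by
  by_cases hd : finrank ℂ (LinearMap.range (p f)) = N f.1
  · refine ⟨0, 0, fun G' hG' k i T hT v => ?_, fun z hz => ?_⟩
    · rw [mul_zero, zero_mul]
      exact Finset.sum_eq_zero fun j _ => T.map_update_zero v j
    · rcases one_dim hf.big hS f (by rw [hN]; exact hd) x y hx hy h0 with h1 | h1
      · rw [h1, smul_zero]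
        rfl
      · rw [h1, map_zero, LinearMap.zero_apply, LinearMap.zero_apply, zero_smul]
  · have hεp : ∀ g, ε g * p g = ε g := fun g => by rw [← hf.big.central g _ (hS.unit g).mem, (hS.unit g).pf]
    obtain ⟨σ, hσ1, hσ2⟩ := hsh hd
    have hnt : Nontrivial (ℂ ⊗[ℚ_[l]] V) := by
      rcases subsingleton_or_nontrivial (ℂ ⊗[ℚ_[l]] V) with hs | hs
      · exact absurd (LinearMap.ext fun x => Subsingleton.elim _ _) (hf.big.ne f)
      · exact hs
    obtain ⟨B, c, hB, hnorm, hkill, hmem⟩ :=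
      exists_lie hf.big.blk (repC ρ) (charC (cyc K l)) hf.big.he (fun s f => hf.big.mem f s) (IsFix K) isFix_bot isFix_conj
    have hcomm : ∀ X ∈ B, X * ε f = ε f * X := fun X hX =>
      Kills.comm hf.big.blk.nd hf.big.he isFix_bot (hmem X hX) (ε f) (hS.unit f).mem
    obtain ⟨Q, h1, h2, h3⟩ := exists_Q_gal hf.big hS f B hB.lie hnorm hcomm
    obtain ⟨X, hX, h5⟩ := nil_of_four_gal hf.big hS f (P := P.baseChange ℂ)
      (by rw [← hεp f, mul_assoc, hP1]) (by rw [← hεp (cj f), mul_assoc, hP2])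
      (fun T hT hTP => core_of_four' h4 hf.big T hT hTP) B Q hcomm h1 h2 h3
      ⟨h σ, (hkill _ _ (hf.kills σ)).1, hf.nonscalar hS σ f hσ1 hσ2⟩ x y hx hy h0
    exact ⟨X, c X, hmem X hX, h5⟩

/-- The idempotent of `E i` is the identity on the parts of the embeddings of `E i`. -/
theorem IsUnitary.supp (hu : IsUnitary A l ι ρ e b c t n N) (hf : Frame ρ e (b.comp c) n N p h) (f : Σ i, E i →+* ℂ) :
    p f * (b (c (Pi.single f.1 1))).baseChange ℂ = p f := by
  have h1 : (b (c (Pi.single f.1 1))).baseChange ℂ ∈ comm (repC ρ) :=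
    (mem_comm_iff hu.faltings _).2 (Submodule.subset_span ⟨_, rfl⟩)
  rw [hf.big.central f _ h1]
  refine LinearMap.ext fun v => ?_
  have h2 : p f v ∈ part (b.comp c) f := by
    rw [← hf.range f]
    exact ⟨v, rfl⟩
  unfold part at h2
  rw [Submodule.mem_iInf] at h2
  have h3 := Module.End.mem_eigenspace_iff.1 (h2 (Pi.single f.1 1))
  rw [Pi.single_eq_same, map_one, one_smul] at h3
  exact h3

/-- The criterion with conditions on the isotypic parts, sufficiency. -/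
theorem IsUnitary.generated5 (hu : IsUnitary A l ι ρ e b c t n N)
    (hgood : ∀ i, (∃ (σ : K →+* ℂ) (φ : E i →+* ℂ), Nat.gcd (n σ ⟨i, φ⟩) (n σ (cj ⟨i, φ⟩)) = N i) ∨
      IsShimura n N ∧ FourTate ρ (b (c (Pi.single i 1))))
    (hlink : NoLink n N ∨ NoTwist (repC ρ) (part (b.comp c)) N) (hnd : Nondeg n) :
    Generated ρ (Representation.trivial ℚ_[l] (GalK K) ℚ_[l]) := by
  classical
  obtain ⟨p, h, hf⟩ := hu.frame
  have hn : ∀ (τ : ℂ ≃+* ℂ) (σ : K →+* ℂ) (f : Σ i, E i →+* ℂ),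
      n ((τ : ℂ →+* ℂ).comp σ) ⟨f.1, (τ : ℂ →+* ℂ).comp f.2⟩ = n σ f := fun τ σ f => hu.type.comp τ σ f
  have := hf.finite.fintype
  let sg : Set.range n → (K →+* ℂ) := fun s => s.2.choose
  have hsg : ∀ s : Set.range n, n (sg s) = s.1 := fun s => s.2.choose_spec
  refine generated_of fun L hL k i T hT => ?_
  refine product_of_pg (fun T hT => ?_) (repC (Representation.trivial ℚ_[l] (GalK K) ℚ_[l])) (fun g w => ?_) T hT
  · refine coreN hf.big (IsFix K) isFix_bot isFix_conj (fun s : Set.range n => h (sg s)) (fun s f => s.1 f)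
      (fun f => N f.1) (fun f => hf.pos _) hf.dim (fun f => rfl) (fun s => hf.idem _) (fun s => hf.kills _)
      (fun s f => by rw [hf.rank, hsg]) (fun f => ?_) (fun f g h1 h2 h3 h4 => ?_) (fun f => ?_) ⟨L, hL, rfl⟩ T hT
    · rcases hgood f.1 with h1 | ⟨h1, h2⟩
      · left
        obtain ⟨σ, hσ⟩ := prop_one hu.cm hn (fun x y => Nat.gcd x y = N f.1) f.1 h1 f.2
        exact ⟨⟨n σ, σ, rfl⟩, hσ⟩
      · right
        intro N' ε u v hS hN x y hx hy h0
        refine hf.nil f h2 (hu.supp hf f) (hu.supp hf (cj f)) (fun hd => ?_) hS hN x y hx hy h0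
        obtain ⟨σ, hσ⟩ := h1 f.1
        by_cases h3 : ∀ φ : E f.1 →+* ℂ, n σ ⟨f.1, φ⟩ = 0 ∨ n σ (cj ⟨f.1, φ⟩) = 0
        · have h4 := hσ h3 f.2
          exact absurd (by rw [← hf.sum σ f]; exact h4) hd
        · push Not at h3
          obtain ⟨φ, h4⟩ := h3
          exact prop_one hu.cm hn (fun x y => x ≠ 0 ∧ y ≠ 0) f.1 ⟨σ, φ, h4⟩ f.2
    · rcases hlink with hlink | hlink
      · obtain ⟨σ, hσ⟩ := hlink f g h1 h2 (fun σ => h3 ⟨n σ, σ, rfl⟩) fun σ => h4 ⟨n σ, σ, rfl⟩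
        exact Or.inl ⟨⟨n σ, σ, rfl⟩, hσ⟩
      · refine Or.inr fun Θ h5 h6 h7 => ?_
        choose χ hχ using h7
        have h8 : finrank ℂ (part (b.comp c) f) ≠ N f.1 := by
          obtain ⟨σ⟩ : Nonempty (K →+* ℂ) := by
            rcases hgood f.1 with ⟨σ, -⟩ | ⟨h1, -⟩
            · exact ⟨σ⟩
            · exact ⟨(h1 f.1).choose⟩
          have h9 := h3 ⟨n σ, σ, rfl⟩
          have h10 : n σ f + n σ (cj f) = finrank ℂ (part (b.comp c) f) := by rw [hf.sum, hf.range]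
          have h11 := hf.pos f.1
          show finrank ℂ (part (b.comp c) f) ≠ N f.1
          have h12 : 2 * N f.1 ≤ n σ f + n σ (cj f) := h9
          omega
        have h9 := hlink f g h1 h2 h8 χ Θ (fun v hv => by
          rw [← hf.range g]
          exact ⟨Θ v, LinearMap.congr_fun h5 v⟩) fun s v hv => LinearMap.congr_fun (hχ s) v
        rw [← h6]
        refine LinearMap.ext fun v => ?_
        exact h9 (p f v) (by rw [← hf.range f]; exact ⟨v, rfl⟩)
    · exact centre_of_nondeg cj hf.big.blk.bb hf.big.blk.bne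
        (fun s => ⟨fun f => s.1 (cj f), (starRingEnd ℂ).comp (sg s), funext fun f => by
          rw [conj_type hn, hsg]⟩) (fun (s : Set.range n) f => s.1 f)
        (fun s f => rfl) (fun z hz h0 => hnd z hz fun σ => h0 ⟨n σ, σ, rfl⟩) f
  · show ((Representation.trivial ℚ_[l] (GalK K) ℚ_[l]) g).baseChange ℂ w = w
    have h1 : (Representation.trivial ℚ_[l] (GalK K) ℚ_[l]) g = LinearMap.id := rfl
    rw [h1, LinearMap.baseChange_id]
    rfl

end

end TUT
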