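import Pool.Agent.Lib.MP_802513_agUH.U15
import Pool.Agent.Lib.MP_021685_agUT.UD3

/-! Separated fields, the numerical part, for the multiplicities `n σ f`: they are those for one embedding of `K`, transported by the
automorphisms of `ℂ`. -/

set_option autoImplicit false

namespace TUT

open Module

/-- The multiplicities for all embeddings of `K` are those for one embedding. -/
private theorem Y6_key {r : ℕ} {E : Fin r → Type} [∀ i, Field (E i)] {K : Type} [Field K] [NumberField K]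
    {n : (K →+* ℂ) → (Σ i, E i →+* ℂ) → ℕ}
    (hn : ∀ (τ : ℂ ≃+* ℂ) (σ : K →+* ℂ) (f : Σ i, E i →+* ℂ),
      n ((τ : ℂ →+* ℂ).comp σ) ⟨f.1, (τ : ℂ →+* ℂ).comp f.2⟩ = n σ f) (σ₀ σ : K →+* ℂ) :
    ∃ τ : ℂ ≃+* ℂ, ∀ f, n σ f = n σ₀ (HUT.mv τ f) := by
  obtain ⟨τ, hτ⟩ := Pool.Agent.Lib.MP_802513_ag.exists_aut σ σ₀
  have h1 : (τ : ℂ →+* ℂ).comp σ = σ₀ := RingHom.ext hτ
  refine ⟨τ, fun f => ?_⟩
  rw [← hn τ σ f, h1]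
  rfl

private theorem Y6_mv {r : ℕ} {E : Fin r → Type} [∀ i, Field (E i)] {K : Type} [Field K]
    {n : (K →+* ℂ) → (Σ i, E i →+* ℂ) → ℕ}
    (hn : ∀ (τ : ℂ ≃+* ℂ) (σ : K →+* ℂ) (f : Σ i, E i →+* ℂ),
      n ((τ : ℂ →+* ℂ).comp σ) ⟨f.1, (τ : ℂ →+* ℂ).comp f.2⟩ = n σ f) (σ₀ : K →+* ℂ) (τ : ℂ ≃+* ℂ) (f : Σ i, E i →+* ℂ) :
    n σ₀ (HUT.mv τ f) = n ((τ.symm : ℂ →+* ℂ).comp σ₀) f := by
  have h1 : (τ : ℂ →+* ℂ).comp ((τ.symm : ℂ →+* ℂ).comp σ₀) = σ₀ := RingHom.ext fun x => τ.apply_symm_apply (σ₀ x)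
  have h2 := hn τ ((τ.symm : ℂ →+* ℂ).comp σ₀) f
  rw [h1] at h2
  exact h2

theorem sep_both_gal {r : ℕ} {E : Fin r → Type} [∀ i, Field (E i)] [∀ i, NumberField (E i)] {K : Type} [Field K] [NumberField K]
    (hCM : ∀ i, NumberField.IsCMField (E i)) (hsep : TSP.Sep E) {n : (K →+* ℂ) → (Σ i, E i →+* ℂ) → ℕ} {N : Fin r → ℕ}
    (hn : ∀ (τ : ℂ ≃+* ℂ) (σ : K →+* ℂ) (f : Σ i, E i →+* ℂ),
      n ((τ : ℂ →+* ℂ).comp σ) ⟨f.1, (τ : ℂ →+* ℂ).comp f.2⟩ = n σ f)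
    (hN : ∀ i, 0 < N i) (hd : ∀ σ (f : Σ i, E i →+* ℂ), N f.1 ∣ n σ f)
    (hm : ∀ (i : Fin r) (σ σ' : K →+* ℂ) (φ φ' : E i →+* ℂ),
      n σ' ⟨i, φ'⟩ + n σ' (cj ⟨i, φ'⟩) = n σ ⟨i, φ⟩ + n σ (cj ⟨i, φ⟩))
    (hcop : ∀ i, (∃ (σ : K →+* ℂ) (φ : E i →+* ℂ), Nat.gcd (n σ ⟨i, φ⟩) (n σ (cj ⟨i, φ⟩)) = N i) ∨
      ∃ (σ : K →+* ℂ) (φ : E i →+* ℂ), n σ ⟨i, φ⟩ ≠ n σ (cj ⟨i, φ⟩) ∧ n σ ⟨i, φ⟩ ≠ 0 ∧ n σ (cj ⟨i, φ⟩) ≠ 0)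
    (h2 : (∀ i, IsRank n N i 2 → HUT.RealMinimal (E i)) ∧
      ∀ i j, i ≠ j → IsRank n N i 2 → IsRank n N j 2 → ¬ HUT.RealIso (E i) (E j))
    (hne : ∀ i, IsRank n N i 2 → ∃ (σ : K →+* ℂ) (φ : E i →+* ℂ), n σ ⟨i, φ⟩ ≠ N i) : NoLink n N ∧ Nondeg n := by
  obtain ⟨σ₀⟩ : Nonempty (K →+* ℂ) := inferInstance
  have hkey := Y6_key hn σ₀
  have hmv := Y6_mv hn σ₀
  have hcj : ∀ (τ : ℂ ≃+* ℂ) (f : Σ i, E i →+* ℂ), HUT.mv τ (cj f) = cj (HUT.mv τ f) := HUT.mv_cj hCM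
  have hrk : ∀ i m, HUT.IsRank (n σ₀) N i m → IsRank n N i m := fun i m h σ φ => by
    rw [hm i σ₀ σ φ φ]
    exact h φ
  obtain ⟨hL, hD⟩ : HUT.NoLink (n σ₀) N ∧ HUT.Nondeg (n σ₀) := by
    refine HUT.sep_both hCM hsep hN (hd σ₀) (fun τ f => hm f.1 σ₀ σ₀ f.2 ((τ : ℂ →+* ℂ).comp f.2)) (fun i => ?_)
      ⟨fun i h => h2.1 i (hrk i 2 h), fun i j hij hi hj => h2.2 i j hij (hrk i 2 hi) (hrk j 2 hj)⟩ fun i h => ?_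
    · rcases hcop i with ⟨σ, φ, h⟩ | ⟨σ, φ, h1, h3, h4⟩
      · obtain ⟨τ, hτ⟩ := hkey σ
        refine Or.inl ⟨(τ : ℂ →+* ℂ).comp φ, ?_⟩
        rw [hτ, hτ, hcj] at h
        exact h
      · obtain ⟨τ, hτ⟩ := hkey σ
        refine Or.inr ⟨(τ : ℂ →+* ℂ).comp φ, ?_, ?_, ?_⟩
        · rw [hτ, hτ, hcj] at h1
          exact h1
        · rw [hτ] at h3
          exact h3
        · rw [hτ, hcj] at h4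
          exact h4
    · obtain ⟨σ, φ, h1⟩ := hne i (hrk i 2 h)
      obtain ⟨τ, hτ⟩ := hkey σ
      refine ⟨(τ : ℂ →+* ℂ).comp φ, ?_⟩
      rw [hτ] at h1
      exact h1
  refine ⟨fun f g hg hg' h1 h3 => ?_, fun z hz h => ?_⟩
  · obtain ⟨τ, h4, h5⟩ := hL f g hg hg' (h1 σ₀) (h3 σ₀)
    refine ⟨(τ.symm : ℂ →+* ℂ).comp σ₀, ?_, ?_⟩
    · rw [← hmv τ f, ← hmv τ g]
      exact h4
    · rw [← hmv τ f, ← hmv τ g, ← hmv τ (cj f), ← hmv τ (cj g), hcj, hcj]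
      exact h5
  · refine hD z hz fun τ => ?_
    rw [← h ((τ.symm : ℂ →+* ℂ).comp σ₀)]
    exact Finset.sum_congr rfl fun f _ => by rw [hmv τ f]

end TUT
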