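import Pool.Agent.Lib.MP_021685_agUT.UD3

/-! Definitions used in the statement of `MP_021685_ag.UnitaryType`: Tate classes of degree four. -/

set_option autoImplicit false

namespace TUT

open TensorProduct Pool.Agent.Lib.MP_17a322_nt.VA Pool.Agent.Lib.MP_021685_agTT

variable {K : Type} [Field K] {l : ℕ} [Fact l.Prime] {V : Type} [AddCommGroup V] [Module ℚ_[l] V]

/-- All Tate classes of degree four on the fourth power of the abelian variety with the Tate module `V`, over all finite extensions
of `K`, which are the pullbacks of their restrictions under the idempotent `P` (`P = 1`: all Tate classes of degree four) are sums of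
products of two Tate classes of degree two (`y a` are numbers, the sum over the permutations is a multiple of the product of `D a 0`
and `D a 1`). -/
def FourTate (ρ : Representation ℚ_[l] (GalK K) V) (P : Module.End ℚ_[l] V) : Prop :=
  ∀ (i : ℤ) (L : IntermediateField K (AlgebraicClosure K)), FiniteDimensional K L →
    ∀ T : (Fin 4 → V) [⋀^Fin 2 ⊕ Fin 2]→ₗ[ℚ_[l]] ℚ_[l],
      (∀ s ∈ L.fixingSubgroup, ∀ v, T (fun a t => ρ s (v a t)) = ((cyc K l s ^ i : ℚ_[l]ˣ) : ℚ_[l]) * T v) →
      (∀ v, T (fun a t => P (v a t)) = T v) →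
        ∃ L' : IntermediateField K (AlgebraicClosure K), FiniteDimensional K L' ∧
          ∃ (r : ℕ) (D : Fin r → Fin 2 → (Fin 4 → V) →ₗ[ℚ_[l]] (Fin 4 → V) →ₗ[ℚ_[l]] ℚ_[l]) (y : Fin r → ℚ_[l]),
            (∀ a b, IsTateTwo (fun (s : GalK K) (v : Fin 4 → V) (t : Fin 4) => ρ s (v t)) L' (D a b)) ∧
              ∀ v, T v = ∑ a, y a * ∑ π : Equiv.Perm (Fin 2 ⊕ Fin 2), ((Equiv.Perm.sign π : ℤ) : ℚ_[l]) *
                ∏ b, D a b (v (π (Sum.inl b))) (v (π (Sum.inr b)))

end TUT
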