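import Pool.Agent.Lib.MP_021685_agUX.Y5
import Pool.Agent.Lib.MP_021685_agUX.Y6
import Pool.Agent.Lib.MP_021685_agUX.UDM
import Pool.Agent.Lib.MP_021685_agUT.Z4

/-! The statement for all multiplicities. -/

set_option autoImplicit false

namespace TUT

open TensorProduct Module Pool.Agent.Lib.MP_17a322_nt.VA Pool.Agent.Lib.MP_021685_agTT

section

variable {K : Type} [Field K] {M : ℕ} {A : AV K M} {l : ℕ} [Fact l.Prime] [Algebra ℚ_[l] ℂ]
    {V : Type} [AddCommGroup V] [Module ℚ_[l] V] [FiniteDimensional ℚ_[l] V] {ι : (ℕ → A.Pts (AlgebraicClosure K)) → V}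
    {ρ : Representation ℚ_[l] (GalK K) V} {e : V →ₗ[ℚ_[l]] V →ₗ[ℚ_[l]] ℚ_[l]}
    {D : Type} [Ring D] [Algebra ℚ D] {b : D →+* Module.End ℚ_[l] V}
    {r : ℕ} {E : Fin r → Type} [∀ i, Field (E i)] [∀ i, NumberField (E i)] {c : (∀ i, E i) →+* D}
    {t : (∀ i, E i) → K} {n : (K →+* ℂ) → (Σ i, E i →+* ℂ) → ℕ} {N : Fin r → ℕ}

/-- The rank one and the prime ranks. -/
theorem IsUnitary.cop_two (hu : IsUnitary A l ι ρ e b c t n N) (hS : IsShimura n N) (i : Fin r)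
    (hq : ∃ m : ℕ, (m = 1 ∨ m.Prime) ∧ IsRank n N i m) : CoprimeAt n N i := by
  obtain ⟨m, hp, hm⟩ := hq
  by_cases h2 : m = 2
  · subst h2
    obtain ⟨σ, hσ⟩ := hS i
    have hN := hu.centre.pos i
    obtain ⟨φ, h3, h4⟩ : ∃ φ : E i →+* ℂ, n σ ⟨i, φ⟩ ≠ 0 ∧ n σ (cj ⟨i, φ⟩) ≠ 0 := by
      by_contra hcon
      push Not at hcon
      obtain ⟨φ⟩ : Nonempty (E i →+* ℂ) := inferInstance
      have h5 := hσ (fun φ => by
        by_cases h6 : n σ ⟨i, φ⟩ = 0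
        · exact Or.inl h6
        · exact Or.inr (hcon φ h6)) φ
      rw [hm σ φ] at h5
      omega
    refine ⟨σ, φ, ?_⟩
    obtain ⟨x, hx⟩ := hu.dvd σ ⟨i, φ⟩
    obtain ⟨y, hy⟩ := hu.dvd σ (cj ⟨i, φ⟩)
    have h1 := hm σ φ
    have hy' : n σ (cj ⟨i, φ⟩) = N i * y := hy
    have hx' : n σ ⟨i, φ⟩ = N i * x := hx
    rw [hx', hy', mul_comm 2, ← mul_add] at h1
    have h5 : x + y = 2 := Nat.eq_of_mul_eq_mul_left hN h1
    have hx0 : x ≠ 0 := fun h => h3 (by rw [hx', h, mul_zero])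
    have hy0 : y ≠ 0 := fun h => h4 (by rw [hy', h, mul_zero])
    have h6 : x = 1 := by omega
    rw [hx', hy', h6, Nat.gcd_mul_left, Nat.gcd_one_left, mul_one]
  · obtain ⟨σ, φ, h1, -⟩ := hu.cop_prime hS i ⟨m, hp.imp id fun h => ⟨h, h2⟩, hm⟩
    exact ⟨σ, φ, h1⟩

/-- The criterion, necessity, in degree four: there are no twists. -/
theorem IsUnitary.noTwist4 (hu : IsUnitary A l ι ρ e b c t n N) (h4 : FourTate ρ 1) : NoTwist (repC ρ) (part (b.comp c)) N := by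
  classical
  obtain ⟨p, h, hf⟩ := hu.frame
  intro f g h1 h2 h3 χ Θ h4' h5 v hv
  by_contra hcon
  have hpf : ∀ x, p f x ∈ part (b.comp c) f := fun x => by rw [← hf.range f]; exact ⟨x, rfl⟩
  have hfix : ∀ g, ∀ x ∈ part (b.comp c) g, p g x = x := by
    intro g x hx
    rw [← hf.range g] at hx
    obtain ⟨y, rfl⟩ := hx
    exact LinearMap.congr_fun (hf.big.blk.idem g) y
  have h6 : p g * (Θ * p f) * p f = Θ * p f := by
    refine LinearMap.ext fun x => ?_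
    show p g (Θ (p f (p f x))) = Θ (p f x)
    rw [hfix f _ (hpf x), hfix g _ (h4' _ (hpf x))]
  obtain ⟨T, w, hT, hTw, hw⟩ := hf.big.exists_exotic h1 h2 (hf.dim f) (by rw [hf.range f]; exact h3)
    (⊥ : IntermediateField K (AlgebraicClosure K)).fixingSubgroup (finiteIndex_fixing _) χ (Θ * p f)
    (fun s _ => by
      refine LinearMap.ext fun x => ?_
      show Θ (p f (repC ρ s x)) = χ s • repC ρ s (Θ (p f x))
      have h7 : p f (repC ρ s x) = repC ρ s (p f x) := (LinearMap.congr_fun (hf.big.mem f s) x).symm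
      rw [h7, h5 s _ (hpf x)]) (by
      rw [h6]
      intro h7
      have h8 := LinearMap.congr_fun h7 v
      rw [Module.End.mul_apply, hfix f v hv] at h8
      exact hcon h8)
  have hspan := core_of_four h4 ⊥ inferInstance 2 T hT fun w => by
    rw [Module.End.one_eq_id, LinearMap.baseChange_id]
    rfl
  refine hTw ?_
  have key : ∀ T' ∈ Submodule.span ℂ {T' : MultilinearMap ℂ (fun _ : Fin 4 => ℂ ⊗[ℚ_[l]] V) ℂ | ∃ (L' : IntermediateField K (AlgebraicClosure K)) (m : ℕ)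
      (ε : Fin m ⊕ Fin m ≃ Fin 4) (β : Fin m → (ℂ ⊗[ℚ_[l]] V) →ₗ[ℂ] (ℂ ⊗[ℚ_[l]] V) →ₗ[ℂ] ℂ), FiniteDimensional K L' ∧
      (∀ j, TGR.IsPairing (repC ρ) (charC (cyc K l)) L'.fixingSubgroup (β j)) ∧
      ∀ v, T' v = ∏ j, β j (v (ε (Sum.inl j))) (v (ε (Sum.inr j)))}, T' w = 0 := by
    intro T' hT'
    induction hT' using Submodule.span_induction with
    | mem T' h' =>
      obtain ⟨L', m, ε, β, hL', hβ, hT'⟩ := h'
      rw [hT' w]
      exact hw _ (finiteIndex_fixing L') m ε β hβ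
    | zero => rfl
    | add x y _ _ hx hy => rw [add_apply, hx, hy, add_zero]
    | smul c x _ hx => rw [smul_apply, hx, smul_zero]
  exact key T hspan

theorem FourTate.part {ρ : Representation ℚ_[l] (GalK K) V} (h : FourTate ρ 1) (P : Module.End ℚ_[l] V) : FourTate ρ P :=
  fun i L hL T hT _ => h i L hL T hT fun _ => rfl

theorem IsUnitary.gen_four (hu : IsUnitary A l ι ρ e b c t n N) (hS : IsShimura n N) (h4 : FourTate ρ 1) (hnd : Nondeg n) :
    AllTate ρ :=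
  hu.generated5 (fun i => Or.inr ⟨hS, h4.part _⟩) (Or.inr (hu.noTwist4 h4)) hnd

theorem IsUnitary.criterionAll (hu : IsUnitary A l ι ρ e b c t n N) : CriterionAll ρ (b.comp c) n N := by
  refine ⟨fun h => ⟨hu.noTwist h, fun P => four_of_all h P⟩, fun h1 h2 => hu.nondeg h1 h2, hu.gen_four, fun h1 h2 h3 => ?_⟩
  refine hu.generated5 (fun i => ?_) h2 h3
  rcases h1 i with h4 | ⟨h4, h5 | h5⟩
  · exact Or.inl h4
  · exact Or.inl (hu.cop_two h4 i h5)
  · exact Or.inr ⟨h4, h5⟩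

/-- Multiplicities which are not degenerate are not balanced. -/
theorem unbalanced_of_nondeg (hCM : ∀ i, NumberField.IsCMField (E i)) (h : Nondeg n) (i : Fin r) : UnbalancedAt n i := by
  classical
  by_contra hcon
  have hcon' : ∀ (σ : K →+* ℂ) (φ : E i →+* ℂ), n σ ⟨i, φ⟩ = n σ (cj ⟨i, φ⟩) := fun σ φ => by
    by_contra h1
    exact hcon ⟨σ, φ, h1⟩
  obtain ⟨φ⟩ : Nonempty (E i →+* ℂ) := inferInstance
  have hne : cj (⟨i, φ⟩ : Σ i, E i →+* ℂ) ≠ ⟨i, φ⟩ := HUT.cj_ne hCM _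
  set f : Σ i, E i →+* ℂ := ⟨i, φ⟩ with hf
  have h1 := h (fun g => if g = f then 1 else if g = cj f then -1 else 0) (fun g => by
    by_cases h1 : g = f
    · rw [h1, if_neg hne, if_pos rfl, if_pos rfl]
    · by_cases h2 : g = cj f
      · rw [h2, cj_cj, if_pos rfl, if_neg hne, if_pos rfl, neg_neg]
      · rw [if_neg h1, if_neg h2, if_neg (fun h3 => h2 (by rw [← h3, cj_cj])),
          if_neg (fun h3 => h1 (by rw [← cj_cj g, h3, cj_cj])), neg_zero]) (fun σ => by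
    rw [← Finset.add_sum_erase _ _ (Finset.mem_univ f), ← Finset.add_sum_erase _ _ (Finset.mem_erase.2 ⟨hne, Finset.mem_univ _⟩),
      Finset.sum_eq_zero fun g hg => by
        rw [Finset.mem_erase, Finset.mem_erase] at hg
        rw [if_neg hg.2.1, if_neg hg.1, zero_mul], if_pos rfl, if_neg hne, if_pos rfl]
    have h2 : n σ f = n σ (cj f) := hcon' σ φ
    rw [← h2]
    ring) f
  rw [if_pos rfl] at h1
  exact one_ne_zero h1

theorem IsUnitary.separatedAll (hu : IsUnitary A l ι ρ e b c t n N) : SeparatedAll ρ (b.comp c) n N := by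
  intro hsep
  refine ⟨⟨unbalanced_of_nondeg hu.cm, hu.nondeg_sep hsep⟩, fun h1 h2 h3 => hu.gen_four h1 h2 (hu.nondeg_sep hsep h3),
    fun h1 h2 => hu.generated_sep hsep (hu.cop_of h1 h2), fun h1 h2 => hu.generated_sep hsep fun i => ?_,
    fun hK h2 h3 h4 => ?_⟩
  · obtain ⟨m, h3, h4⟩ := h2 i
    exact hu.cop_prime h1 i ⟨m, h4, h3⟩
  have hn : ∀ (τ : ℂ ≃+* ℂ) (σ : K →+* ℂ) (f : Σ i, E i →+* ℂ),
      n ((τ : ℂ →+* ℂ).comp σ) ⟨f.1, (τ : ℂ →+* ℂ).comp f.2⟩ = n σ f := fun τ σ f => hu.type.comp τ σ f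
  obtain ⟨h5, h6⟩ := sep_both_gal hu.cm hsep hn hu.centre.pos hu.dvd hu.rank_const (fun i => by
    rcases h4 i with h5 | ⟨h5, h6 | h6⟩
    · exact Or.inl h5
    · exact Or.inl (hu.cop_two h5 i h6)
    · exact Or.inr h6.1) h2 fun i hi => by
    obtain ⟨σ, φ, h5⟩ := h3 i hi
    refine ⟨σ, φ, fun h6 => h5 ?_⟩
    have h7 := hi σ φ
    rw [h6] at h7 ⊢
    omega
  refine hu.generated5 (fun i => ?_) (Or.inl h5) h6
  rcases h4 i with h5 | ⟨h5, h6 | h6⟩
  · exact Or.inl h5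
  · exact Or.inl (hu.cop_two h5 i h6)
  · exact Or.inr ⟨h5, h6.2⟩

end

theorem mainAll : MainAll :=
  fun _ _ _ _ _ _ _ _ _ _ _ _ _ _ _ _ _ _ _ _ _ _ _ _ _ _ hu => ⟨hu.criterionAll, hu.separatedAll⟩

end TUT
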